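import Pool.Agent.P.MP_b1ffdf_al.TI

set_option autoImplicit false

open Classical Finset

namespace Pool.Agent.P.MP_b1ffdf_al.Loc

open Pool.Agent.P.MP_b1ffdf_al

/-- An invariant sum that is not zero modulo `r` has a fixed term that is not zero. -/
theorem sum_fixed {Γ X R : Type*} [Group Γ] [Finite Γ] [Fintype X] [MulAction Γ X] [CommRing R]
    {r : ℕ} (hr : r.Prime) (I : Ideal R) (hI : (r : R) ∈ I) (P : Subgroup Γ) (hP : IsPGroup r P)
    (F : X → R) (hF : ∀ p ∈ P, ∀ x, F (p • x) = F x) (h : ∑ x, F x ∉ I) :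
    ∃ x, (∀ p ∈ P, p • x = x) ∧ F x ∉ I := by
  have := Fact.mk hr
  by_contra hc
  push Not at hc
  apply h
  rw [← Finset.sum_fiberwise univ (Quotient.mk (MulAction.orbitRel P X))]
  refine I.sum_mem fun ω _ => ?_
  induction ω using Quotient.ind with
  | _ x0 =>
  have e1 : ∀ x, Quotient.mk (MulAction.orbitRel P X) x = Quotient.mk _ x0 ↔
      x ∈ MulAction.orbit P x0 := fun x => Quotient.eq
  have e2 : ∀ x ∈ univ.filter fun x => Quotient.mk (MulAction.orbitRel P X) x = Quotient.mk _ x0,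
      F x = F x0 := fun x hx => by
    obtain ⟨p, rfl⟩ := (e1 x).1 (mem_filter.1 hx).2
    exact hF p p.2 x0
  rw [Finset.sum_congr rfl e2, Finset.sum_const, nsmul_eq_mul]
  have e3 : (univ.filter fun x => Quotient.mk (MulAction.orbitRel P X) x = Quotient.mk _ x0).card =
      Nat.card (MulAction.orbit P x0) := by
    rw [Nat.card_eq_fintype_card, Fintype.card_subtype]
    congr 1
    ext x
    simp only [mem_filter, mem_univ, true_and, e1]
  obtain ⟨k, hk⟩ := hP.card_orbit x0
  rw [e3, hk]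
  rcases k with _ | k
  · refine I.mul_mem_left _ (hc x0 fun p hp => ?_)
    rw [pow_zero, Nat.card_eq_one_iff_unique] at hk
    exact congrArg Subtype.val (hk.1.elim (⟨_, MulAction.mem_orbit x0 (⟨p, hp⟩ : P)⟩ :
      MulAction.orbit P x0) ⟨_, MulAction.mem_orbit_self x0⟩)
  · rw [pow_succ, Nat.cast_mul]
    exact I.mul_mem_right _ (I.mul_mem_left _ hI)

/-- The abstract transfer of stabilizers. -/
theorem transfer {Γ X Y R : Type*} [Group Γ] [Finite Γ] [Fintype X] [Fintype Y] [MulAction Γ X]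
    [MulAction Γ Y] [CommRing R] [IsDomain R] {r : ℕ} (hr : r.Prime) (I : Ideal R)
    (hI : (r : R) ∈ I) (P : Subgroup Γ) (hP : IsPGroup r P) (lam : Γ → R)
    (hl : ∀ p ∈ P, lam p = 1) (L : Y → R) (hL : ∀ z y, L (z • y) = lam z * L y)
    (n : Y → X → R) (hn : ∀ (z : Γ) y x, n (z • y) (z • x) = n y x) (w : X → R)
    (hw : ∀ p ∈ P, ∀ x, w (p • x) = w x) (h : ∑ y, L y * ∑ x, n y x * w x ∉ I) :
    ∃ x, (∀ p ∈ P, p • x = x) ∧ (∀ z, z • x = x → lam z = 1) ∧
      ∀ Q : Subgroup Γ, IsPGroup r Q → (∀ q ∈ Q, q • x = x) →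
        ∃ y, (∀ q ∈ Q, q • y = y) ∧ L y ≠ 0 ∧ n y x ≠ 0 := by
  have hN : ∀ (z : Γ) x, ∑ y, L y * n y (z • x) = lam z * ∑ y, L y * n y x := by
    intro z x
    rw [← Equiv.sum_comp (MulAction.toPerm z), Finset.mul_sum]
    exact Finset.sum_congr rfl fun y _ => by
      rw [MulAction.toPerm_apply, hL, hn, mul_assoc]
  have e : ∑ y, L y * ∑ x, n y x * w x = ∑ x, (∑ y, L y * n y x) * w x := by
    simp only [Finset.mul_sum, Finset.sum_mul, mul_assoc]
    exact Finset.sum_comm
  rw [e] at h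
  obtain ⟨x, h1, h2⟩ := sum_fixed hr I hI P hP _ (fun p hp x => by
    simp only [hN, hl p hp, one_mul, hw p hp]) h
  have h3 : ∑ y, L y * n y x ∉ I := fun h3 => h2 (I.mul_mem_right _ h3)
  have h4 : ∀ z, z • x = x → lam z = 1 := fun z hz => by
    have h5 := hN z x
    rw [hz] at h5
    have h6 : ∑ y, L y * n y x ≠ 0 := fun h6 => h3 (h6 ▸ I.zero_mem)
    exact (mul_right_cancel₀ h6 (by rw [← h5, one_mul])).symm
  refine ⟨x, h1, h4, fun Q hQ hQx => ?_⟩
  obtain ⟨y, h5, h6⟩ := sum_fixed hr I hI Q hQ _ (fun q hq y => by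
    have := hn q y x
    rw [hQx q hq] at this
    simp only [hL, h4 q (hQx q hq), one_mul, this]) h3
  exact ⟨y, h5, fun h0 => h6 (by rw [h0, zero_mul]; exact I.zero_mem),
    fun h0 => h6 (by rw [h0, mul_zero]; exact I.zero_mem)⟩

variable {G : Type} [Group G] [Fintype G]

/-- The permutation character on the cosets of `H`. -/
noncomputable def th (H : Subgroup G) (g : G) : ℕ := (univ.filter fun q : G ⧸ H => g • q = q).card

theorem th_char (H : Subgroup G) : IsChar (fun g => (th H g : ℂ)) := by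
  let ρ : Representation ℂ G (G ⧸ H → ℂ) :=
    { toFun := fun g => LinearMap.funLeft ℂ ℂ (fun x => g⁻¹ • x)
      map_one' := by ext; simp
      map_mul' := fun g h => by ext; simp [LinearMap.funLeft, mul_smul] }
  have : ρ.character = fun g => (th H g : ℂ) := by
    ext g
    rw [Representation.character, LinearMap.trace_eq_matrix_trace ℂ (Pi.basisFun ℂ (G ⧸ H))]
    simp [Matrix.trace, ρ, LinearMap.funLeft, Pi.single_apply, th, inv_smul_eq_iff, eq_comm (b := g • _)]
  exact this ▸ isChar_of_rep ρ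

omit [Fintype G] in
theorem smul_mk (H : Subgroup G) (g x : G) :
    g • (x : G ⧸ H) = x ↔ x⁻¹ * g * x ∈ H := by
  rw [MulAction.Quotient.smul_mk, eq_comm, QuotientGroup.eq, smul_eq_mul, mul_assoc]

theorem th_frob (H : Subgroup G) {f : G → ℂ} (hf : IsClass f) :
    (Nat.card G : ℂ)⁻¹ * ∑ g, (th H g : ℂ) * f g = (Nat.card H : ℂ)⁻¹ * ∑ h : H, f h := by
  have h1 : ∀ q : G ⧸ H, ∑ g, (if g • q = q then f g else 0) = ∑ h : H, f h := by
    intro q
    induction q using QuotientGroup.induction_on with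
    | _ x =>
    rw [sum_sub H f, ← Equiv.sum_comp (MulAut.conj x).toEquiv]
    refine Finset.sum_congr rfl fun g _ => ?_
    exact if_congr ((smul_mk H _ x).trans (by simp [mul_assoc])) (hf g x) rfl
  have h2 : ∑ g, (th H g : ℂ) * f g = ∑ q : G ⧸ H, ∑ g, (if g • q = q then f g else 0) := by
    rw [Finset.sum_comm]
    refine Finset.sum_congr rfl fun g _ => ?_
    rw [← Finset.sum_filter, Finset.sum_const, nsmul_eq_mul, th]
  rw [h2]
  simp only [h1]
  rw [Finset.sum_const, card_univ, nsmul_eq_mul, ← Nat.card_eq_fintype_card,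
    Subgroup.card_eq_card_quotient_mul_card_subgroup H]
  have a1 : (Nat.card (G ⧸ H) : ℂ) ≠ 0 := by exact_mod_cast Nat.card_pos.ne'
  have a2 : (Nat.card H : ℂ) ≠ 0 := card_ne
  push_cast
  field_simp

theorem th_pow (H : Subgroup G) {g : G} {k N : ℕ} (hg : g ^ N = 1) (hk : k.Coprime N) :
    th H (g ^ k) = th H g := by
  unfold th
  congr 1
  ext q
  simp only [mem_filter, mem_univ, true_and]
  have h1 : g ∈ Subgroup.zpowers (g ^ k) :=
    mem_zpowers_pow_iff.2 (hk.coprime_dvd_right (orderOf_dvd_of_pow_eq_one hg))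
  exact ⟨fun h => (Subgroup.zpowers_le (H := MulAction.stabilizer G q)).2 h h1,
    fun h => (MulAction.stabilizer G q).pow_mem h k⟩

/-- `H` has a cyclic normal subgroup of order prime to `r` with an `r`-group as quotient. -/
def Hyp (r : ℕ) (H : Subgroup G) : Prop :=
  ∃ y ∈ H, (∀ h ∈ H, h * y * h⁻¹ ∈ Subgroup.zpowers y) ∧ (orderOf y).Coprime r ∧
    ∀ h ∈ H, ∃ j, h ^ r ^ j ∈ Subgroup.zpowers y

theorem th_modEq (H : Subgroup G) {r : ℕ} (hr : r.Prime) (g : G) (v : ℕ) :
    th H (g ^ r ^ v) ≡ th H g [MOD r] := by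
  have := Fact.mk hr
  let f : Function.End {q : G ⧸ H // (g ^ r ^ v) • q = q} := fun q => ⟨g • q.1, by
    rw [← mul_smul, ← pow_succ, pow_succ', mul_smul, q.2]⟩
  have h1 : ∀ j q, ((f ^ j) q).1 = g ^ j • q.1 := by
    intro j
    induction j with
    | zero => intro q; simp [Function.End.one_def]
    | succ j ih => intro q; rw [pow_succ, pow_succ, mul_smul]; exact ih (f q)
  have h2 := Equiv.Perm.card_fixedPoints_modEq (f := f) (p := r) (n := v)
    (funext fun q => Subtype.ext ((h1 _ q).trans q.2))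
  have h3 : Fintype.card f.fixedPoints = th H g := by
    rw [th, ← Fintype.card_subtype]
    refine Fintype.card_congr ⟨fun q => ⟨q.1.1, congrArg Subtype.val q.2⟩, fun q =>
      ⟨⟨q.1, (MulAction.stabilizer G q.1).pow_mem q.2 _⟩, Subtype.ext q.2⟩, fun _ => rfl,
      fun _ => rfl⟩
  rwa [h3, Fintype.card_subtype] at h2

theorem exists_hyp {r : ℕ} (hr : r.Prime) (g : G) : ∃ H, Hyp r H ∧ ¬ r ∣ th H g := by
  have := Fact.mk hr
  obtain ⟨v, m, hm, hG⟩ := split_card (G := G) r hr
  set y := g ^ r ^ v with hy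
  have hy1 : (orderOf y).Coprime r := by
    have : y ^ m = 1 := by rw [hy, ← pow_mul, mul_comm, ← hG, pow_card_eq_one']
    exact ((Nat.Prime.coprime_iff_not_dvd hr).2 hm).symm.coprime_dvd_left
      (orderOf_dvd_of_pow_eq_one this)
  set C := Subgroup.zpowers y with hC
  set D := Subgroup.normalizer (C : Set G) with hD
  have : (C.subgroupOf D).Normal := Subgroup.normal_in_normalizer
  obtain ⟨S⟩ : Nonempty (Sylow r (D ⧸ C.subgroupOf D)) := inferInstance
  set H1 : Subgroup D := S.1.comap (QuotientGroup.mk' _) with hH1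
  have hyD : y ∈ D := Subgroup.le_normalizer (Subgroup.mem_zpowers y)
  have hCH : ∀ c ∈ C, c ∈ H1.map D.subtype := fun c hc =>
    ⟨⟨c, Subgroup.le_normalizer hc⟩, by
      have : QuotientGroup.mk' (C.subgroupOf D) ⟨c, Subgroup.le_normalizer hc⟩ = 1 :=
        (QuotientGroup.eq_one_iff _).2 hc
      change QuotientGroup.mk' _ _ ∈ S.1
      rw [this]; exact one_mem _, rfl⟩
  have hp : ∀ h ∈ H1.map D.subtype, ∃ j, h ^ r ^ j ∈ C := by
    rintro _ ⟨h, hh, rfl⟩
    obtain ⟨j, hj⟩ := S.isPGroup' ⟨_, hh⟩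
    refine ⟨j, ?_⟩
    have h1 := congrArg Subtype.val hj
    simp only [SubgroupClass.coe_pow, OneMemClass.coe_one] at h1
    rw [← map_pow] at h1
    exact (QuotientGroup.eq_one_iff (N := C.subgroupOf D) (h ^ r ^ j)).1 h1
  have hHD : H1.map D.subtype ≤ D := Subgroup.map_subtype_le _
  refine ⟨H1.map D.subtype, ⟨y, hCH y (Subgroup.mem_zpowers y), fun h hh =>
    (Subgroup.mem_normalizer_iff.1 (hHD hh) y).1 (Subgroup.mem_zpowers y), hy1, hp⟩, fun hd => ?_⟩
  have h1 : r ∣ th (H1.map D.subtype) y :=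
    ((th_modEq (H1.map D.subtype) hr g v).dvd_iff (dvd_refl r)).2 hd
  have h2 : ∀ x : G, x⁻¹ * y * x ∈ H1.map D.subtype ↔ x ∈ D := by
    intro x
    constructor
    · intro hx
      obtain ⟨j, hj⟩ := hp _ hx
      have o1 : orderOf (x⁻¹ * y * x) = orderOf y := by
        have := (MulAut.conj x⁻¹).orderOf_eq y
        simpa using this
      have h3 : x⁻¹ * y * x ∈ C := (Subgroup.zpowers_le.2 hj) (mem_zpowers_pow_iff.2
        (by rw [o1]; exact (hy1.symm.pow_left j)))
      rw [← inv_mem_iff]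
      refine Subgroup.mem_normalizer_fintype ?_
      rintro _ ⟨i, rfl⟩
      have : x⁻¹ * y ^ i * x⁻¹⁻¹ = (x⁻¹ * y * x⁻¹⁻¹) ^ i := conj_zpow.symm
      rw [this, inv_inv]
      exact C.zpow_mem h3 i
    · intro hx
      have := (Subgroup.mem_normalizer_iff.1 (D.inv_mem hx) y).1 (Subgroup.mem_zpowers y)
      rw [inv_inv] at this
      exact hCH _ this
  have h3 : th (H1.map D.subtype) y = H1.index := by
    rw [th, Subgroup.index, Nat.card_eq_fintype_card, ← Fintype.card_subtype]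
    symm
    refine Fintype.card_of_bijective (f := fun q => ⟨Quotient.map' D.subtype (fun a b hab => by
      rw [QuotientGroup.leftRel_apply] at hab ⊢
      exact ⟨_, hab, by simp⟩) q, ?_⟩) ⟨?_, ?_⟩
    · induction q using QuotientGroup.induction_on with
      | _ x => exact (smul_mk _ y x).2 ((h2 x).2 x.2)
    · intro a b hab
      induction a using QuotientGroup.induction_on with
      | _ a =>
      induction b using QuotientGroup.induction_on with
      | _ b =>
      have h4 : ((a : G) : G ⧸ H1.map D.subtype) = (b : G) := congrArg Subtype.val hab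
      rw [QuotientGroup.eq] at h4 ⊢
      obtain ⟨c, hc, e⟩ := h4
      rwa [show a⁻¹ * b = c from Subtype.ext e.symm]
    · rintro ⟨q, hq⟩
      induction q using QuotientGroup.induction_on with
      | _ x => exact ⟨((⟨x, (h2 x).1 ((smul_mk _ y x).1 hq)⟩ : D) : D ⧸ H1), rfl⟩
  rw [h3, hH1, Subgroup.index_comap_of_surjective _ (QuotientGroup.mk'_surjective _)] at h1
  exact S.not_dvd_index h1

end Pool.Agent.P.MP_b1ffdf_al.Loc
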