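import Pool.Agent.P.MP_b1ffdf_al.Loc.Abs

set_option autoImplicit false

open Classical Finset

namespace Pool.Agent.P.MP_b1ffdf_al.Loc

open Pool.Agent.P.MP_b1ffdf_al

/-- A group acting on class functions by power maps and linear characters. -/
structure Act (Γ G : Type) [Group Γ] [Group G] (N : ℕ) where
  k : Γ → ℕ
  b : Γ → G →* ℂˣ
  pos : 0 < N
  ex : ∀ g : G, g ^ N = 1
  cop : ∀ x, (k x).Coprime N
  k_one : k 1 ≡ 1 [MOD N]
  k_mul : ∀ x y, k (x * y) ≡ k x * k y [MOD N]
  b_one : b 1 = 1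
  b_mul : ∀ x y g, b (x * y) g = b x g * b y (g ^ k x)

variable {Γ G : Type} [Group Γ] [Group G] {N : ℕ}

/-- The action on functions on a group mapping to `G`. -/
noncomputable def Act.act (a : Act Γ G N) {M : Type} [Group M] (i : M →* G) (x : Γ) (f : M → ℂ) :
    M → ℂ := fun g => a.b x (i g) * f (g ^ a.k x)

section
variable (a : Act Γ G N) {M : Type} [Group M] {i : M →* G} (hi : Function.Injective i)
include hi

include a in
theorem Act.exM (g : M) : g ^ N = 1 := hi (by rw [map_pow, a.ex, map_one])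

include a in
theorem Act.pow_congr (g : M) {s t : ℕ} (h : s ≡ t [MOD N]) : g ^ s = g ^ t :=
  pow_eq_pow_iff_modEq.2 (h.of_dvd (orderOf_dvd_of_pow_eq_one (a.exM hi g)))

theorem Act.act_one (f : M → ℂ) : a.act i 1 f = f := by
  ext g
  simp [Act.act, a.b_one, a.pow_congr hi g a.k_one]

theorem Act.act_mul (x y : Γ) (f : M → ℂ) : a.act i (x * y) f = a.act i x (a.act i y f) := by
  ext g
  simp [Act.act, a.b_mul, a.pow_congr hi g (a.k_mul x y), pow_mul, mul_assoc]

variable [Fintype M]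

theorem Act.ip_act (x : Γ) (f h : M → ℂ) : ip (a.act i x f) (a.act i x h) = ip f h := by
  have hb : Function.Bijective fun g : M => g ^ a.k x :=
    Finite.injective_iff_bijective.1 fun g g' e => by
      have e1 : a.k x * a.k x⁻¹ ≡ 1 [MOD N] :=
        (a.k_mul x x⁻¹).symm.trans (by rw [mul_inv_cancel]; exact a.k_one)
      have e2 : (g ^ a.k x) ^ a.k x⁻¹ = (g' ^ a.k x) ^ a.k x⁻¹ := congrArg (· ^ a.k x⁻¹) e
      rwa [← pow_mul, ← pow_mul, a.pow_congr hi g e1, a.pow_congr hi g' e1, pow_one, pow_one] at e2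
  unfold ip
  rw [← hb.sum_comp fun g => f g * h g⁻¹]
  congr 1
  refine Finset.sum_congr rfl fun g _ => ?_
  simp only [Act.act, map_inv, inv_pow, Units.val_inv_eq_inv_val]
  field_simp

omit hi in
theorem isChar_lin (β : M →* ℂˣ) : IsChar fun g => (β g : ℂ) := by
  let ρ : Representation ℂ M ℂ :=
    { toFun := fun g => (β g : ℂ) • LinearMap.id
      map_one' := by ext; simp
      map_mul' := fun g h => by ext; simp [mul_comm] }
  have : ρ.character = fun g => (β g : ℂ) := by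
    ext g
    simp [Representation.character, ρ]
  exact this ▸ isChar_of_rep ρ

theorem Act.isChar (x : Γ) {f : M → ℂ} (hf : IsChar f) : IsChar (a.act i x f) := by
  have hζ := Complex.isPrimitiveRoot_exp _ a.pos.ne'
  obtain ⟨φ, hφ⟩ := exists_pow_hom a.pos hζ (a.cop x)
  have : a.act i x f = (fun g => ((a.b x).comp i g : ℂ)) * (φ ∘ f) := by
    ext g
    simp [Act.act, hf.map_pow a.pos hζ (a.exM hi g) hφ]
  rw [this]
  exact (isChar_lin _).mul (hf.twist φ)

theorem Act.isIrr (x : Γ) {f : M → ℂ} (hf : IsIrr f) : IsIrr (a.act i x f) := by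
  rw [isIrr_iff] at hf ⊢
  exact ⟨a.isChar hi x hf.1, by rw [a.ip_act hi, hf.2]⟩

/-- The action on irreducible characters. -/
@[reducible] noncomputable def Act.irr : MulAction Γ {ψ : M → ℂ // IsIrr ψ} where
  smul x ψ := ⟨a.act i x ψ.1, a.isIrr hi x ψ.2⟩
  one_smul ψ := Subtype.ext (a.act_one hi ψ.1)
  mul_smul x y ψ := Subtype.ext (a.act_mul hi x y ψ.1)

end

theorem Act.act_comp (a : Act Γ G N) {M M' : Type} [Group M] [Group M'] (i : M →* G)
    (j : M' →* M) (x : Γ) (f : M → ℂ) : a.act i x f ∘ j = a.act (i.comp j) x (f ∘ j) := by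
  ext g
  simp [Act.act]

noncomputable instance {M : Type} [Group M] [Fintype M] : Fintype {ψ : M → ℂ // IsIrr ψ} :=
  (irr_finite (G := M)).fintype

theorem expand' {M : Type} [Group M] [Fintype M] {F : M → ℂ} (hF : IsClass F) :
    F = ∑ ψ : {ψ : M → ℂ // IsIrr ψ}, ip F ψ.1 • ψ.1 := by
  conv_lhs => rw [expand hF]
  exact Finset.sum_subtype _ (fun _ => mem_irrs) fun ψ => ip F ψ • ψ

variable [Fintype G]

theorem isChar_one : IsChar (1 : G → ℂ) := isChar_lin (1 : G →* ℂˣ)

/-- Integer valued virtual characters that are invariant under the power maps. -/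
def Act.good (a : Act Γ G N) : Subring (G → ℤ) where
  carrier := {u | (fun g => (u g : ℂ)) ∈ Subring.closure {f : G → ℂ | IsChar f} ∧
    ∀ x g, u (g ^ a.k x) = u g}
  mul_mem' := fun {u v} hu hv => ⟨by
    simpa [Pi.mul_def] using mul_mem hu.1 hv.1, fun x g => by simp [hu.2, hv.2]⟩
  one_mem' := ⟨by simp only [Pi.one_apply, Int.cast_one]; exact one_mem _, fun _ _ => rfl⟩
  add_mem' := fun {u v} hu hv => ⟨by
    simpa [Pi.add_def] using add_mem hu.1 hv.1, fun x g => by simp [hu.2, hv.2]⟩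
  zero_mem' := ⟨by simp only [Pi.zero_apply, Int.cast_zero]; exact zero_mem _, fun _ _ => rfl⟩
  neg_mem' := fun {u} hu => ⟨by simp only [Pi.neg_apply, Int.cast_neg]; exact neg_mem hu.1, fun x g => by simp [hu.2]⟩

theorem vc_class {f : G → ℂ} (hf : f ∈ Subring.closure {f : G → ℂ | IsChar f}) : IsClass f := by
  induction hf using Subring.closure_induction with
  | mem f h => exact IsChar.isClass h
  | zero => exact fun _ _ => rfl
  | one => exact fun _ _ => rfl
  | add f h _ _ h1 h2 => exact fun g y => by simp [h1 g y, h2 g y]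
  | neg f _ h1 => exact fun g y => by simp [h1 g y]
  | mul f h _ _ h1 h2 => exact fun g y => by simp [h1 g y, h2 g y]

/-- The algebraic integers. -/
abbrev Oc : Subalgebra ℤ ℂ := integralClosure ℤ ℂ

theorem vc_int {f : G → ℂ} (hf : f ∈ Subring.closure {f : G → ℂ | IsChar f}) {H : Type} [Group H]
    [Fintype H] (i : H →* G) {u v : H → ℂ} (hu : IsChar u) (hv : IsChar v) :
    ip (u * f ∘ i) v ∈ Oc := by
  have h1 : f ∈ AddSubgroup.closure {f : G → ℂ | IsChar f} := by
    let S : Submonoid (G → ℂ) := ⟨⟨{f | IsChar f}, IsChar.mul⟩, isChar_one⟩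
    have := Subring.mem_closure_iff.1 hf
    rwa [show Submonoid.closure {f : G → ℂ | IsChar f} = S from Submonoid.closure_eq S] at this
  clear hf
  induction h1 using AddSubgroup.closure_induction with
  | mem f h =>
    obtain ⟨m, hm⟩ := (hu.mul (IsChar.comp h i)).ip_nat hv
    rw [hm]; exact natCast_mem _ _
  | zero => rw [show u * (0 : G → ℂ) ∘ i = 0 from mul_zero u, ip_zero]; exact zero_mem _
  | add f h _ _ h1 h2 =>
    rw [show u * (f + h) ∘ i = u * f ∘ i + u * h ∘ i from mul_add u _ _, ip_add]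
    exact add_mem h1 h2
  | neg f _ h1 =>
    rw [show u * (-f) ∘ i = 0 - u * f ∘ i from by rw [zero_sub]; exact mul_neg u _, ip_sub, ip_zero]
    exact sub_mem (zero_mem _) h1

theorem exists_prime_over {r : ℕ} (hr : r.Prime) : ∃ I : Ideal Oc, I ≠ ⊤ ∧ (r : Oc) ∈ I := by
  refine ⟨Ideal.span {(r : Oc)}, fun h => ?_, Ideal.mem_span_singleton_self _⟩
  obtain ⟨w, hw⟩ := (Ideal.span_singleton_eq_top.1 h).exists_right_inv
  have h0 : (r : ℂ) ≠ 0 := by exact_mod_cast hr.ne_zero
  have h1 : (w : ℂ) = algebraMap ℚ ℂ (r : ℚ)⁻¹ := by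
    have := congrArg Subtype.val hw
    simp only [MulMemClass.coe_mul, SubringClass.coe_natCast, OneMemClass.coe_one] at this
    simpa using eq_inv_of_mul_eq_one_right this
  have h2 : IsIntegral ℤ (r : ℚ)⁻¹ :=
    (isIntegral_algebraMap_iff (algebraMap ℚ ℂ).injective).1 (h1 ▸ w.2)
  obtain ⟨z, hz⟩ := IsIntegrallyClosed.isIntegral_iff.1 h2
  have h3 : (r : ℤ) * z = 1 := by
    have h4 : (r : ℚ) ≠ 0 := by exact_mod_cast hr.ne_zero
    have : (r : ℚ) * z = 1 := by rw [show (z : ℚ) = (r : ℚ)⁻¹ from hz, mul_inv_cancel₀ h4]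
    exact_mod_cast this
  have := Int.eq_one_of_mul_eq_one_right (by positivity) h3
  exact hr.ne_one (by exact_mod_cast this)

theorem solomon (a : Act Γ G N) {r : ℕ} (hr : r.Prime) (J : AddSubgroup (G → ℤ))
    (hJ : ∀ H : Subgroup G, Hyp r H → ∀ u ∈ a.good, (fun g => (th H g : ℤ)) * u ∈ J) (v : ℕ) :
    ∃ u ∈ J, ∀ g, (r : ℤ) ^ (v + 1) ∣ u g - 1 := by
  choose H hH hth using exists_hyp (G := G) hr
  let t : G → G → ℤ := fun x g => th (H x) g
  have ht : ∀ x, t x ∈ a.good := fun x =>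
    ⟨Subring.subset_closure (by simpa [t] using th_char (H x)), fun z g => by
      simp only [t, th_pow (H x) (a.ex g) (a.cop z)]⟩
  have hg : ∀ s : Finset G, ∏ x ∈ s, (1 - t x ^ (r - 1)) ∈ a.good := fun s =>
    prod_mem fun x _ => sub_mem (one_mem _) (pow_mem (ht x) _)
  have h1 : ∀ s : Finset G, ∀ u ∈ a.good, (1 - ∏ x ∈ s, (1 - t x ^ (r - 1))) * u ∈ J := by
    intro s
    induction s using Finset.induction_on with
    | empty => intro u _; simp
    | insert x s hx ih =>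
      intro u hu
      obtain ⟨e, he⟩ : ∃ e, r - 1 = e + 1 := ⟨r - 2, by have := hr.two_le; omega⟩
      have := add_mem (ih u hu) (hJ (H x) (hH x) _ (mul_mem (mul_mem (pow_mem (ht x) e) (hg s)) hu))
      convert this using 1
      rw [Finset.prod_insert hx, he]
      change _ = _ + t x * _
      ring
  obtain ⟨e, he⟩ : ∃ e, r ^ v = e + 1 := ⟨r ^ v - 1, by have := Nat.one_le_pow v r hr.pos; omega⟩
  refine ⟨_, h1 univ _ (pow_mem (sub_mem (one_mem _) (hg univ)) e), fun g => ?_⟩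
  rw [← pow_succ', ← he]
  have h2 : (r : ℤ) ∣ (1 - ∏ x, (1 - t x ^ (r - 1))) g - 1 := by
    simp only [Pi.sub_apply, Pi.one_apply, Finset.prod_apply, Pi.pow_apply, sub_sub_cancel_left,
      dvd_neg]
    refine Dvd.dvd.trans ?_ (Finset.dvd_prod_of_mem _ (mem_univ g))
    exact (Int.ModEq.pow_card_sub_one_eq_one hr (Nat.isCoprime_iff_coprime.2
      ((hr.coprime_iff_not_dvd).2 (hth g)).symm)).dvd
  simpa using dvd_sub_pow_of_dvd_sub h2 v

/-- The stabilizer of an irreducible character is seen locally, one prime at a time. -/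
theorem core [Finite Γ] (a : Act Γ G N) {r : ℕ} (hr : r.Prime) {χ : G → ℂ} (hχ : IsIrr χ)
    (lam : Γ →* ℂˣ) (hl : ∀ x, a.act (MonoidHom.id G) x χ = χ → lam x = 1) (P : Subgroup Γ)
    (hP : IsPGroup r P) (hPχ : ∀ x ∈ P, a.act (MonoidHom.id G) x χ = χ)
    (M : Subgroup G → Subgroup G) (hM : ∀ H, H ≤ M H) :
    ∃ H, Hyp r H ∧ ∃ ψ : M H → ℂ, IsIrr ψ ∧ (∀ x ∈ P, a.act (M H).subtype x ψ = ψ) ∧
      (∀ x, a.act (M H).subtype x ψ = ψ → lam x = 1) ∧
      ∀ Q : Subgroup Γ, IsPGroup r Q → (∀ x ∈ Q, a.act (M H).subtype x ψ = ψ) →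
        ∃ z, (∀ x ∈ Q, a.act (MonoidHom.id G) (x * z) χ = a.act (MonoidHom.id G) z χ) ∧
          ip (a.act (MonoidHom.id G) z χ ∘ (M H).subtype) ψ ≠ 0 := by
  by_contra hc
  obtain ⟨I, hI1, hI⟩ := exists_prime_over hr
  have hid : Function.Injective (MonoidHom.id G) := fun _ _ h => h
  let _ := a.irr hid
  let c0 : {ψ : G → ℂ // IsIrr ψ} := ⟨χ, hχ⟩
  have hint : ∀ x, (lam x : ℂ) ∈ Oc := fun x => by
    have h1 : (lam x : ℂ) ^ Nat.card Γ = 1 := by
      rw [← Units.val_pow_eq_pow_val, ← map_pow, pow_card_eq_one', map_one, Units.val_one]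
    exact IsIntegral.of_pow Nat.card_pos (h1 ▸ isIntegral_one)
  let lm : Γ → Oc := fun x => ⟨lam x, hint x⟩
  have hl' : ∀ x y : Γ, x • c0 = y • c0 → lam x = lam y := fun x y h => by
    have := hl (y⁻¹ * x) (congrArg Subtype.val (show (y⁻¹ * x) • c0 = c0 by
      rw [mul_smul, h, inv_smul_smul]))
    rw [map_mul, map_inv, inv_mul_eq_one] at this
    exact this.symm
  let L : {ψ : G → ℂ // IsIrr ψ} → Oc := fun y => if h : ∃ z : Γ, z • c0 = y then lm h.choose else 0
  have hL1 : ∀ z : Γ, L (z • c0) = lm z := fun z => by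
    have h : ∃ z' : Γ, z' • c0 = z • c0 := ⟨z, rfl⟩
    simp only [L, dif_pos h, lm, hl' _ _ h.choose_spec]
  have hL0 : ∀ y, L y ≠ 0 → ∃ z : Γ, z • c0 = y := fun y h => by
    by_contra h1
    exact h (dif_neg h1)
  have hL : ∀ (z : Γ) y, L (z • y) = lm z * L y := fun z y => by
    by_cases h : ∃ z' : Γ, z' • c0 = y
    · obtain ⟨z', rfl⟩ := h
      rw [← mul_smul, hL1, hL1]
      exact Subtype.ext (by simp [lm])
    · have h' : ¬ ∃ z' : Γ, z' • c0 = z • y := fun ⟨z', e⟩ =>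
        h ⟨z⁻¹ * z', by rw [mul_smul, e, inv_smul_smul]⟩
      simp only [L, dif_neg h, dif_neg h', mul_zero]
  let Φ : (G → ℤ) → ℂ := fun u => ∑ y, (L y : ℂ) * ip (y.1 * fun g => (u g : ℂ)) χ
  let J : AddSubgroup (G → ℤ) :=
    { carrier := {u | ∃ w ∈ I, (w : ℂ) = Φ u}
      add_mem' := by
        rintro u v ⟨w, hw, e⟩ ⟨w', hw', e'⟩
        refine ⟨w + w', I.add_mem hw hw', ?_⟩
        simp only [AddMemClass.coe_add, e, e', Φ, ← Finset.sum_add_distrib, ← mul_add, ← ip_add]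
        simp [Pi.add_def]
      zero_mem' := ⟨0, I.zero_mem, by simp [Φ, ip]⟩
      neg_mem' := by
        rintro u ⟨w, hw, e⟩
        refine ⟨-w, I.neg_mem hw, ?_⟩
        simp [e, Φ, ip] }
  have hJ : ∀ H : Subgroup G, Hyp r H → ∀ u ∈ a.good, (fun g => (th H g : ℤ)) * u ∈ J := by
    intro H hH u hu
    let _ := a.irr (M H).subtype_injective
    let j : H →* M H := Subgroup.inclusion (hM H)
    let n : {ψ : G → ℂ // IsIrr ψ} → {ψ : M H → ℂ // IsIrr ψ} → Oc := fun y ψ =>
      ⟨ip (y.1 ∘ (M H).subtype) ψ.1, by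
        obtain ⟨m, hm⟩ := (y.2.isChar.comp (M H).subtype).ip_nat ψ.2.isChar
        rw [hm]; exact natCast_mem _ _⟩
    let w : {ψ : M H → ℂ // IsIrr ψ} → Oc := fun ψ =>
      ⟨ip (ψ.1 ∘ j * (fun g => (u g : ℂ)) ∘ H.subtype) (χ ∘ H.subtype),
        vc_int hu.1 _ (ψ.2.isChar.comp j) (hχ.isChar.comp _)⟩
    refine ⟨∑ y, L y * ∑ ψ, n y ψ * w ψ, ?_, ?_⟩
    · by_contra h
      obtain ⟨ψ, h1, h2, h3⟩ := transfer hr I hI P hP lm
        (fun p hp => Subtype.ext (by simp [lm, hl p (hPχ p hp)])) L hL n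
        (fun z y ψ => Subtype.ext (by
          change ip (a.act _ z y.1 ∘ (M H).subtype) (a.act _ z ψ.1) = _
          rw [a.act_comp]
          exact a.ip_act (M H).subtype_injective z _ _)) w
        (fun p hp ψ => Subtype.ext (by
          change ip (a.act _ p ψ.1 ∘ j * _) _ = ip _ _
          rw [← a.ip_act H.subtype_injective p (ψ.1 ∘ j * _)]
          congr 1
          · ext g
            simp [Act.act, hu.2, j, mul_assoc]
          · conv_lhs => rw [← hPχ p hp]
            rfl)) h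
      refine hc ⟨H, hH, ψ.1, ψ.2, fun x hx => congrArg Subtype.val (h1 x hx), fun x hx =>
        Units.ext (congrArg Subtype.val (h2 x (Subtype.ext hx))), fun Q hQ hQψ => ?_⟩
      obtain ⟨y, h4, h5, h6⟩ := h3 Q hQ fun q hq => Subtype.ext (hQψ q hq)
      obtain ⟨z, rfl⟩ := hL0 y h5
      exact ⟨z, fun x hx => by
        rw [a.act_mul hid]; exact congrArg Subtype.val (h4 x hx), fun h => h6 (Subtype.ext h)⟩
    · simp only [Φ, AddSubmonoidClass.coe_finsetSum, MulMemClass.coe_mul, n, w]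
      refine Finset.sum_congr rfl fun y _ => ?_
      congr 1
      have hcl : IsClass fun g => y.1 g * u g * χ g⁻¹ := fun g x => by
        have := hχ.isChar.isClass g⁻¹ x
        simp only [y.2.isChar.isClass g x, vc_class hu.1 g x, mul_inv_rev, inv_inv, ← mul_assoc, this]
      have h1 := th_frob H hcl
      have h2 := expand' (y.2.isChar.comp (M H).subtype).isClass
      have h3 : (y.1 ∘ H.subtype * (fun g => (u g : ℂ)) ∘ H.subtype) =
          ∑ ψ : {ψ : M H → ℂ // IsIrr ψ}, ip (y.1 ∘ (M H).subtype) ψ.1 •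
            (ψ.1 ∘ j * (fun g => (u g : ℂ)) ∘ H.subtype) := by
        ext g
        have := congrFun h2 (j g)
        simp only [Finset.sum_apply, Pi.smul_apply, smul_eq_mul, Pi.mul_apply,
          Function.comp_apply, ← mul_assoc, ← Finset.sum_mul] at this ⊢
        rw [← this]
        rfl
      simp only [← ip_smul]
      rw [← ip_sum, ← h3, ip, ip]
      refine Eq.trans ?_ (h1.symm.trans ?_)
      · rfl
      · congr 1
        refine Finset.sum_congr rfl fun g _ => ?_
        simp only [Pi.mul_apply, Int.cast_mul, Int.cast_natCast]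
        ring
  obtain ⟨v, m, hm, hG⟩ := split_card (G := G) r hr
  obtain ⟨u, ⟨w, hw, e⟩, hu⟩ := solomon a hr J hJ v
  choose c hc using hu
  have h1 : ∑ y : {ψ : G → ℂ // IsIrr ψ}, (L y : ℂ) * ip y.1 χ = 1 := by
    rw [Finset.sum_eq_single c0]
    · have := hL1 1
      rw [one_smul] at this
      rw [this, (isIrr_iff.1 hχ).2]
      simp [lm]
    · intro y _ hy
      rw [y.2.ip_eq hχ, if_neg (fun e => hy (Subtype.ext e)), mul_zero]
    · simp
  let α : Oc := ∑ y, L y * ∑ g, ⟨y.1 g, y.2.isChar.isIntegral g⟩ * (c g : Oc) *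
    ⟨χ g⁻¹, hχ.isChar.isIntegral _⟩
  have h2 : (m : Oc) * (w - 1) = r * α := by
    apply Subtype.ext
    have r0 : (r : ℂ) ≠ 0 := by exact_mod_cast hr.ne_zero
    have m0 : (m : ℂ) ≠ 0 := by
      rintro h
      rw [Nat.cast_eq_zero.1 h] at hm
      exact hm (dvd_zero r)
    simp only [α, MulMemClass.coe_mul, AddSubgroupClass.coe_sub, SubringClass.coe_natCast,
      OneMemClass.coe_one, AddSubmonoidClass.coe_finsetSum, SubringClass.coe_intCast, e, Φ]
    rw [← h1, ← Finset.sum_sub_distrib, Finset.mul_sum, Finset.mul_sum]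
    refine Finset.sum_congr rfl fun y _ => ?_
    rw [← mul_sub, ← ip_sub, ip, hG]
    have h3 : ∀ g, ((y.1 * fun g => (u g : ℂ)) - y.1) g * χ g⁻¹ =
        (r : ℂ) ^ (v + 1) * (y.1 g * c g * χ g⁻¹) := fun g => by
      have h4 : (u g : ℂ) - 1 = (r : ℂ) ^ (v + 1) * c g := by exact_mod_cast hc g
      simp only [Pi.sub_apply, Pi.mul_apply]
      linear_combination y.1 g * χ g⁻¹ * h4
    simp only [h3, ← Finset.mul_sum]
    push_cast
    field_simp
    ring
  have h3 : (m : Oc) ∈ I := by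
    have : (m : Oc) = m * w - r * α := by rw [← h2]; ring
    rw [this]
    exact I.sub_mem (I.mul_mem_left _ hw) (I.mul_mem_right _ hI)
  obtain ⟨s, t, hst⟩ := Nat.isCoprime_iff_coprime.2 ((hr.coprime_iff_not_dvd).2 hm)
  refine hI1 ((Ideal.eq_top_iff_one I).2 ?_)
  have : (1 : Oc) = s * r + t * m := by exact_mod_cast congrArg (Int.cast : ℤ → Oc) hst.symm
  rw [this]
  exact I.add_mem (I.mul_mem_left _ hI) (I.mul_mem_left _ h3)

end Pool.Agent.P.MP_b1ffdf_al.Loc
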