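import Pool.Agent.P.MP_b1ffdf_al.Loc.Eig

set_option autoImplicit false

open Classical Finset Pointwise

namespace Pool.Agent.P.MP_b1ffdf_al.Loc

variable {B : Type} [CommGroup B] [Finite B]

instance : HasEnoughRootsOfUnity ℂ (Monoid.exponent B) :=
  haveI : NeZero ((Monoid.exponent B : ℕ) : ℂ) :=
    ⟨by exact_mod_cast Monoid.exponent_ne_zero_of_finite⟩
  inferInstance

theorem char_prime {p : ℕ} (hp : p.Prime) (S : Finset ℕ) (t : ℕ → B)
    (ht : ∀ i ∈ S, t i ≠ 1 ∧ ∃ j, t i ^ p ^ j = 1)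
    (h : S.card ≤ p ∨ ∀ P : Sylow p B, IsCyclic P) : ∃ μ : B →* ℂˣ, ∀ i ∈ S, μ (t i) ≠ 1 := by
  haveI := Fact.mk hp
  rcases h with h | h
  · by_contra! hc
    let K : ℕ → Subgroup (B →* ℂˣ) := fun i => (MonoidHom.eval (t i)).ker
    have hcov : ⋃ i ∈ S, (1 : B →* ℂˣ) • (K i : Set (B →* ℂˣ)) = Set.univ := by
      simp only [Set.eq_univ_iff_forall, Set.mem_iUnion]
      exact fun μ => let ⟨i, h1, h2⟩ := hc μ; ⟨i, h1, μ, h2, one_mul μ⟩
    have p0 : (0 : ℚ) < p := by exact_mod_cast hp.pos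
    have h1 : ∀ i ∈ S, ((K i).index : ℚ)⁻¹ ≤ (p : ℚ)⁻¹ := fun i hi => by
      obtain ⟨h1, j, hj⟩ := ht i hi
      have hP : IsPGroup p (MonoidHom.eval (t i) : (B →* ℂˣ) →* ℂˣ).range := by
        rintro ⟨_, μ, rfl⟩
        exact ⟨j, Subtype.ext (by simp [← map_pow, hj])⟩
      rcases hP.card_eq_or_dvd with e | e
      · obtain ⟨μ, hμ⟩ := CommGroup.exists_apply_ne_one_of_hasEnoughRootsOfUnity B ℂ h1
        exact absurd (Subgroup.card_eq_one.1 e ▸ ⟨μ, rfl⟩ : μ (t i) ∈ (⊥ : Subgroup ℂˣ)) hμ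
      · rw [← Subgroup.index_ker] at e
        exact inv_anti₀ p0 (by exact_mod_cast Nat.le_of_dvd (K i).index_ne_zero_of_finite.pos e)
    have h2 := Subgroup.one_le_sum_inv_index_of_leftCoset_cover hcov
    have h3 := Finset.sum_le_card_nsmul _ _ _ h1
    rw [nsmul_eq_mul, ← div_eq_mul_inv] at h3
    have h4 := (div_le_one p0).2 (show (S.card : ℚ) ≤ p by exact_mod_cast h)
    have h5 : p ≤ S.card := by exact_mod_cast (one_le_div p0).1 (h2.trans h3)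
    obtain ⟨i, hi, j, hj, e⟩ := Finset.one_lt_card.1 (hp.one_lt.trans_le h5)
    have := Subgroup.pairwiseDisjoint_leftCoset_cover_of_sum_inv_index_eq_one hcov
      (le_antisymm (h3.trans h4) h2) (mem_coe.2 (mem_filter.2 ⟨hi, inferInstance⟩))
      (mem_coe.2 (mem_filter.2 ⟨hj, inferInstance⟩)) e
    exact Set.disjoint_left.1 this ⟨1, one_mem _, rfl⟩ ⟨1, one_mem _, rfl⟩
  · obtain ⟨P, hP⟩ := (CommGroup.primaryComponent.isPGroup (G := B) (p := p)).exists_le_sylow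
    haveI := h P
    haveI : NeZero (Nat.card P) := ⟨Nat.card_pos.ne'⟩
    let e := mulEquivOfCyclicCardEq (Complex.card_rootsOfUnity (Nat.card P)).symm
    obtain ⟨μ, hμ⟩ := MonoidHom.domRestrict_surjective ℂ (P : Subgroup B)
      ((rootsOfUnity _ ℂ).subtype.comp e.toMonoidHom)
    refine ⟨μ, fun i hi h1 => (ht i hi).1 ?_⟩
    have h2 := DFunLike.congr_fun hμ ⟨t i, hP (ht i hi).2⟩
    exact congrArg Subtype.val (e.map_eq_one_iff.1 (Subtype.ext (h2.symm.trans h1)))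

theorem char_all (S : Finset ℕ) (t : ℕ → B) (s : ℕ → ℕ)
    (ht : ∀ i ∈ S, t i ≠ 1 ∧ (s i).Prime ∧ ∃ j, t i ^ s i ^ j = 1)
    (h : ∀ p, p.Prime → (S.filter (s · = p)).card ≤ p ∨ ∀ P : Sylow p B, IsCyclic P) :
    ∃ μ : B →* ℂˣ, ∀ i ∈ S, μ (t i) ≠ 1 := by
  have key : ∀ p, ∃ μ : B →* ℂˣ, p.Prime → ∀ i ∈ S, (μ (t i) = 1 ↔ s i ≠ p) := fun p => by
    by_cases hp : p.Prime
    swap
    · exact ⟨1, fun h => absurd h hp⟩
    obtain ⟨μ, hμ⟩ := char_prime hp (S.filter (s · = p)) t (fun i hi => by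
      obtain ⟨h1, rfl⟩ := mem_filter.1 hi
      exact ⟨(ht i h1).1, (ht i h1).2.2⟩) (h p hp)
    obtain ⟨v, m, hm, hB⟩ := Nat.exists_eq_pow_mul_and_not_dvd (Nat.card_pos (α := B)).ne' p
      hp.ne_one
    refine ⟨μ ^ m, fun _ i hi => ?_⟩
    obtain ⟨-, h1, j, hj⟩ := ht i hi
    rw [MonoidHom.pow_apply]
    constructor
    · rintro e rfl
      refine hμ i (mem_filter.2 ⟨hi, rfl⟩) (orderOf_eq_one_iff.1 (Nat.eq_one_of_dvd_coprimes
        ((hp.coprime_iff_not_dvd.2 hm).pow_left j) (orderOf_dvd_of_pow_eq_one ?_)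
        (orderOf_dvd_of_pow_eq_one e)))
      rw [← map_pow, hj, map_one]
    · intro e
      rw [← map_pow, orderOf_dvd_iff_pow_eq_one.1 (Nat.Coprime.dvd_of_dvd_mul_left
        (Nat.Coprime.coprime_dvd_left (orderOf_dvd_of_pow_eq_one hj)
          (Nat.Coprime.pow j v ((Nat.coprime_primes h1 hp).2 e))) (hB ▸ orderOf_dvd_natCard _)),
        map_one]
  choose μ hμ using key
  refine ⟨∏ p ∈ S.image s, μ p, fun i hi => ?_⟩
  rw [MonoidHom.finsetProd_apply, Finset.prod_eq_single (s i)]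
  · exact fun e => (hμ _ (ht i hi).2.1 i hi).1 e rfl
  · intro p hp e
    obtain ⟨i', h1, rfl⟩ := mem_image.1 hp
    exact (hμ _ (ht i' h1).2.1 i hi).2 e.symm
  · exact fun h => absurd (mem_image_of_mem s hi) h

end Pool.Agent.P.MP_b1ffdf_al.Loc
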