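import Pool.Agent.P.MP_b1ffdf_al.Loc.Gal2

set_option autoImplicit false

open Classical Finset CategoryTheory

namespace Pool.Agent.P.MP_b1ffdf_al.Loc

open Pool.Agent.P.MP_b1ffdf_al

section
variable {V : Type} [AddCommGroup V] [Module ℂ V] [FiniteDimensional ℂ V]

theorem eig1 (T : Module.End ℂ V) (W : Submodule ℂ V) (h0 : W ≠ ⊥) (hT : ∀ v ∈ W, T v ∈ W) :
    ∃ μ, W ⊓ T.eigenspace μ ≠ ⊥ := by
  haveI : Nontrivial W := Submodule.nontrivial_iff_ne_bot.2 h0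
  obtain ⟨μ, hμ⟩ := Module.End.exists_eigenvalue (T.restrict hT)
  obtain ⟨v, hv⟩ := hμ.exists_hasEigenvector
  exact ⟨μ, (Submodule.ne_bot_iff _).2 ⟨v, ⟨v.2, Module.End.mem_eigenspace_iff.2
    (congrArg Subtype.val hv.apply_eq_smul)⟩, fun h => hv.2 (Subtype.ext h)⟩⟩

theorem eig2 {T Y : Module.End ℂ V} (hc : Commute T Y) (W : Submodule ℂ V) (h0 : W ≠ ⊥)
    (hT : ∀ v ∈ W, T v ∈ W) (hY : ∀ v ∈ W, Y v ∈ W) :
    ∃ v ∈ W, v ≠ 0 ∧ ∃ μ ν : ℂ, T v = μ • v ∧ Y v = ν • v := by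
  obtain ⟨μ, h1⟩ := eig1 T W h0 hT
  obtain ⟨ν, h2⟩ := eig1 Y _ h1 fun v hv => ⟨hY v hv.1, Module.End.mem_eigenspace_iff.2 (by
    rw [← Module.End.mul_apply, hc.eq, Module.End.mul_apply, Module.End.mem_eigenspace_iff.1 hv.2,
      map_smul])⟩
  obtain ⟨v, hv, h3⟩ := (Submodule.ne_bot_iff _).1 h2
  exact ⟨v, hv.1.1, h3, μ, ν, Module.End.mem_eigenspace_iff.1 hv.1.2,
    Module.End.mem_eigenspace_iff.1 hv.2⟩

omit [FiniteDimensional ℂ V] in
theorem eig_pow {T : Module.End ℂ V} {v : V} {μ : ℂ} (h : T v = μ • v) (n : ℕ) :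
    (T ^ n) v = μ ^ n • v := by
  induction n with
  | zero => simp
  | succ n ih => rw [pow_succ, Module.End.mul_apply, h, map_smul, ih, smul_smul, pow_succ']

end

variable {H : Type} [Group H] [Fintype H]

theorem inj_of_simple (W : FDRep ℂ H) (hW : Simple W) {V : Type} [AddCommGroup V] [Module ℂ V]
    [FiniteDimensional ℂ V] (σ : Representation ℂ H V) (h : ip σ.character W.character ≠ 0) :
    ∃ f : W →ₗ[ℂ] V, Function.Injective f ∧ ∀ g v, f (W.ρ g v) = σ g (f v) := by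
  letI := invertibleOfNonzero (card_ne (G := H))
  have h2 := Representation.card_inv_mul_sum_char_mul_char_eq_finrank W.ρ σ
  obtain ⟨f, hf⟩ : ∃ f : Representation.IntertwiningMap W.ρ σ, f ≠ 0 :=
    (Module.finrank_pos_iff_exists_ne_zero (R := ℂ)).1 (Nat.pos_of_ne_zero fun e =>
      h (h2.trans (by rw [e, Nat.cast_zero])))
  have hc : ∀ g v, f.toLinearMap (W.ρ g v) = σ g (f.toLinearMap v) := fun g v =>
    f.isIntertwining _ _ g v
  obtain ⟨w, hw⟩ : ∃ w, f.toLinearMap w ≠ 0 := by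
    by_contra! h1
    exact hf (Representation.IntertwiningMap.ext (LinearMap.ext h1))
  obtain ⟨α, hα⟩ := Module.Projective.exists_dual_eq_one ℂ hw
  let p : Module.End ℂ W := (α ∘ₗ f.toLinearMap).smulRight w
  obtain ⟨c, hc'⟩ := schur W hW (∑ g, W.ρ g * p * W.ρ g⁻¹) fun x => by
    rw [Finset.sum_mul, Finset.mul_sum, ← Equiv.sum_comp (Equiv.mulLeft x)]
    refine Finset.sum_congr rfl fun g _ => ?_
    simp only [Equiv.coe_mulLeft, mul_assoc, ← map_mul, mul_inv_rev, inv_mul_cancel, mul_one]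
    rw [map_mul, mul_assoc]
  have h3 : c ≠ 0 := by
    rintro rfl
    have := congrArg (LinearMap.trace ℂ W) hc'
    rw [map_sum, zero_smul, map_zero, Finset.sum_congr rfl fun g _ => show _ = (1 : ℂ) from by
      rw [LinearMap.trace_mul_comm, ← mul_assoc, ← map_mul, inv_mul_cancel, map_one, one_mul,
        LinearMap.trace_smulRight]; exact hα] at this
    simp at this
  refine ⟨f.toLinearMap, (injective_iff_map_eq_zero _).2 fun v hv => ?_, hc⟩
  have := LinearMap.congr_fun hc' v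
  simp only [LinearMap.sum_apply, Module.End.mul_apply, p, LinearMap.smulRight_apply,
    LinearMap.comp_apply, hc, hv, map_zero, zero_smul, Finset.sum_const_zero,
    LinearMap.smul_apply, Module.End.one_apply] at this
  exact (smul_eq_zero.1 this.symm).resolve_left h3

theorem fix_one (V : FDRep ℂ H) (hV : Simple V) {y z : H}
    (hy : ∀ h, h * y * h⁻¹ ∈ Subgroup.zpowers y) (hz : z ∈ Subgroup.zpowers y) {v : V}
    (h0 : v ≠ 0) (hv : V.ρ z v = v) : V.ρ z = 1 := by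
  have hn : (Subgroup.zpowers z).Normal := ⟨by
    obtain ⟨i, rfl⟩ := hz
    rintro _ ⟨n, rfl⟩ x
    obtain ⟨j, hj⟩ := hy x
    refine ⟨j * n, ?_⟩
    simp only at hj ⊢
    rw [← conj_zpow, ← conj_zpow, ← hj, ← zpow_mul, ← zpow_mul, ← zpow_mul]
    congr 1; ring⟩
  let F : H → ℂ := fun g => if g ∈ Subgroup.zpowers z then 1 else 0
  obtain ⟨c, hc⟩ := schur V hV _ (class_comm V (F := F) fun g x => by
    simp only [F, hn.mem_comm_iff (a := x * g), inv_mul_cancel_left])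
  have h1 : c ≠ 0 := by
    rintro rfl
    have h2 := LinearMap.congr_fun hc v
    have h3 : ∀ g, (F g • V.ρ g) v = F g • v := fun g => by
      by_cases hg : g ∈ Subgroup.zpowers z
      · obtain ⟨n, rfl⟩ := mem_powers_iff_mem_zpowers.2 hg
        simp only [LinearMap.smul_apply, map_pow]
        rw [eig_pow (μ := 1) (by rw [hv, one_smul]), one_pow, one_smul]
      · simp [F, hg]
    simp only [LinearMap.sum_apply, h3, ← Finset.sum_smul, zero_smul, LinearMap.zero_apply,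
      smul_eq_zero, h0, or_false, F, Finset.sum_boole, Nat.cast_eq_zero, Finset.card_eq_zero] at h2
    exact Finset.ne_empty_of_mem (a := 1) (by simp) h2
  have h2 : V.ρ z * ∑ g, F g • V.ρ g = ∑ g, F g • V.ρ g := by
    rw [Finset.mul_sum, ← Equiv.sum_comp (Equiv.mulLeft z) fun g => F g • V.ρ g]
    refine Finset.sum_congr rfl fun g _ => ?_
    simp [F, Subgroup.mul_mem_cancel_left _ (Subgroup.mem_zpowers z)]
  rw [hc, mul_smul_comm, mul_one] at h2
  exact smul_right_injective _ h1 h2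

theorem comm_of_ne (V : FDRep ℂ H) (hV : Simple V) {y g : H}
    (hy : ∀ h, h * y * h⁻¹ ∈ Subgroup.zpowers y) (hg : V.character g ≠ 0) :
    Commute (V.ρ g) (V.ρ y) := by
  obtain ⟨z, hz⟩ : ∃ z, z = g⁻¹ * y * g * y⁻¹ := ⟨_, rfl⟩
  have h1 : z ∈ Subgroup.zpowers y :=
    hz ▸ mul_mem (by simpa using hy g⁻¹) (inv_mem (Subgroup.mem_zpowers y))
  have h2 : ∀ i : ℕ, y ^ i * g * (y ^ i)⁻¹ = g * z ^ i := fun i => by
    induction i with
    | zero => simp
    | succ i ih =>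
      have : Commute y (z ^ i) := by
        obtain ⟨j, e⟩ := pow_mem h1 i
        exact e ▸ (Commute.refl y).zpow_right j
      rw [pow_succ' z, ← mul_assoc, show g * z = y * g * y⁻¹ by rw [hz]; group, mul_assoc (y * g),
        this.inv_left.eq, ← mul_assoc, mul_assoc y, ← ih, pow_succ']
      group
  obtain ⟨w, hw⟩ : ∃ w, (∑ i ∈ range (Nat.card H), V.ρ z ^ i) w ≠ 0 := by
    by_contra! h3
    have h4 := congrArg (fun E => LinearMap.trace ℂ V (V.ρ g * E)) (LinearMap.ext h3 :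
      ∑ i ∈ range (Nat.card H), V.ρ z ^ i = 0)
    simp only [Finset.mul_sum, ← map_pow, ← map_mul, map_sum, ← h2, mul_zero, map_zero] at h4
    have h5 := (Finset.sum_congr rfl fun i _ => V.char_conj g (y ^ i)).symm.trans h4
    simp [hg, Nat.card_pos.ne'] at h5
  have h3 := fix_one V hV hy h1 hw (by
    rw [← sub_eq_zero]
    have := LinearMap.congr_fun (mul_geom_sum (V.ρ z) (Nat.card H)) w
    rwa [← map_pow, pow_card_eq_one', map_one, sub_self] at this)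
  change _ * _ = _ * _
  rw [← map_mul V.ρ y, show y * g = g * z * y by rw [hz]; group, map_mul, map_mul, h3, mul_one]

theorem hyp_eig (V : FDRep ℂ H) (hV : Simple V) {r N : ℕ} (hr : r.Prime) (hN : 0 < N)
    (hex : ∀ h : H, h ^ N = 1) {y : H} (hy : ∀ h, h * y * h⁻¹ ∈ Subgroup.zpowers y)
    (hq : ∀ h, ∃ j, h ^ r ^ j ∈ Subgroup.zpowers y) (S : Finset ℕ) (a : ℕ → ℕ)
    (hS : ∀ l ∈ S, l.Prime ∧ ∃ k, k.Coprime N ∧ (∀ n, n ∣ N → ¬ l ^ a l ∣ n → k ≡ 1 [MOD n]) ∧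
      ∃ g, V.character (g ^ k) ≠ V.character g) :
    ∃ (h : H) (μ : ℂ) (v : V), v ≠ 0 ∧ V.ρ h v = μ • v ∧ ∀ l ∈ S, l ^ a l ∣ orderOf μ := by
  have hρ : ∀ g, V.ρ g ^ N = 1 := fun g => by rw [← map_pow, hex, map_one]
  have h1 : ∀ l ∈ S, l ≠ r → l ^ a l ∣ orderOf (V.ρ y) := fun l hl hlr => by
    obtain ⟨hp, k, -, hk, g, hg⟩ := hS l hl
    by_contra h
    obtain ⟨j, hj⟩ := hq g
    obtain ⟨i, hi⟩ := mem_powers_iff_mem_zpowers.2 hj
    have h2 : orderOf (V.ρ g) ∣ r ^ j * orderOf (V.ρ y) := orderOf_dvd_of_pow_eq_one (by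
      rw [pow_mul, ← map_pow, ← hi, map_pow, ← pow_mul, mul_comm, pow_mul, pow_orderOf_eq_one,
        one_pow])
    have h3 := hk _ (orderOf_dvd_of_pow_eq_one (hρ g)) fun e => h
      ((Nat.Coprime.pow _ _ ((Nat.coprime_primes hp hr).2 hlr)).dvd_of_dvd_mul_left (e.trans h2))
    refine hg ?_
    rw [FDRep.character, map_pow, pow_eq_pow_of_modEq h3 (pow_orderOf_eq_one _), pow_one]
    rfl
  obtain ⟨g, W, h0, hc, hT, hY, hW⟩ : ∃ (g : H) (W : Submodule ℂ V), W ≠ ⊥ ∧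
      Commute (V.ρ g) (V.ρ y) ∧ (∀ v ∈ W, V.ρ g v ∈ W) ∧ (∀ v ∈ W, V.ρ y v ∈ W) ∧
      ∀ v ∈ W, v ≠ 0 → ∀ μ : ℂ, V.ρ g v = μ • v → r ∈ S → r ^ a r ∣ orderOf μ := by
    by_cases hrS : r ∈ S
    swap
    · obtain ⟨d, hd, e⟩ := IsIrr.one_ne_zero ⟨V, hV, rfl⟩
      rw [V.char_one, Nat.cast_inj] at e
      haveI := Module.nontrivial_of_finrank_pos (R := ℂ) (M := V) (e ▸ hd)
      exact ⟨1, ⊤, top_ne_bot, by simp, by simp, by simp, fun _ _ _ _ _ h => absurd h hrS⟩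
    obtain ⟨-, k, hk1, hk, g, hg⟩ := hS r hrS
    have hζ := Complex.isPrimitiveRoot_exp _ hN.ne'
    obtain ⟨φ, hφ⟩ := exists_pow_hom hN hζ hk1
    have hc := comm_of_ne V hV hy (g := g) fun e => hg (by
      rw [← IsChar.map_pow ⟨V, rfl⟩ hN hζ (hex g) hφ, e, map_zero])
    obtain _ | e := k
    · obtain rfl : N = 1 := by simpa using hk1
      exact absurd (by rw [pow_zero, ← hex g, pow_one]) hg
    have hi : ∀ T, Commute (V.ρ g) T → ∀ v ∈ LinearMap.range (V.ρ g ^ e - 1),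
        T v ∈ LinearMap.range (V.ρ g ^ e - 1) := by
      rintro T hT _ ⟨w, rfl⟩
      exact ⟨T w, LinearMap.congr_fun ((hT.pow_left e).sub_left (Commute.one_left T)).eq w⟩
    refine ⟨g, _, fun h => hg ?_, hc, hi _ (Commute.refl _), hi _ hc, ?_⟩
    · rw [FDRep.character, map_pow, pow_succ, sub_eq_zero.1 (LinearMap.range_eq_bot.1 h), one_mul]
      rfl
    rintro v ⟨w, hw⟩ h0 μ hμ -
    by_contra h
    have h2 : μ ^ N = 1 := smul_left_injective ℂ h0 (by
      simp only [← eig_pow hμ, hρ, one_smul, Module.End.one_apply])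
    have h3 := pow_eq_pow_of_modEq (hk _ (orderOf_dvd_of_pow_eq_one h2) h) (pow_orderOf_eq_one μ)
    rw [pow_succ, pow_one, mul_eq_right₀ (by rintro rfl; simp [hN.ne'] at h2)] at h3
    have h4 := LinearMap.congr_fun (geom_sum_mul (V.ρ g ^ e) N) w
    rw [← pow_mul, mul_comm e, pow_mul, hρ, one_pow, sub_self, Module.End.mul_apply, hw,
      LinearMap.sum_apply, Finset.sum_congr rfl fun i _ => eig_pow (eig_pow hμ e) i] at h4
    simp [h3, h0, hN.ne', ← Nat.cast_smul_eq_nsmul ℂ] at h4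
  obtain ⟨v, hv, hv0, μ, ν, hμ, hν⟩ := eig2 hc W h0 hT hY
  obtain ⟨z, hz, ho⟩ := (Commute.all μ ν).exists_orderOf_eq_lcm
  obtain ⟨i, j, rfl⟩ := (Submonoid.mem_closure_pair _ _ _).1 hz
  refine ⟨g ^ i * y ^ j, μ ^ i * ν ^ j, v, hv0, ?_, fun l hl => ?_⟩
  · rw [map_mul, map_pow, map_pow, Module.End.mul_apply, eig_pow hν, map_smul, eig_pow hμ,
      smul_smul, mul_comm]
  rw [ho]
  by_cases hlr : l = r
  · subst hlr
    exact (hW v hv hv0 μ hμ hl).trans (Nat.dvd_lcm_left _ _)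
  refine (h1 l hl hlr).trans (Dvd.dvd.trans (orderOf_dvd_of_pow_eq_one ?_) (Nat.dvd_lcm_right _ _))
  rw [← map_pow]
  exact fix_one V hV hy (pow_mem (Subgroup.mem_zpowers y) _) hv0 (by
    rw [map_pow, eig_pow hν, pow_orderOf_eq_one, one_smul])

end Pool.Agent.P.MP_b1ffdf_al.Loc
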