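import Pool.Agent.P.MP_b1ffdf_al.Loc.Dual

set_option autoImplicit false

open Classical Finset IntermediateField CategoryTheory

namespace Pool.Agent.P.MP_b1ffdf_al.Loc

open Pool.Agent.P.MP_b1ffdf_al

variable {N : ℕ} {ζ : ℂ}

theorem hom_root (hN : 0 < N) (hζ : IsPrimitiveRoot ζ N) {φ : ℂ →+* ℂ} {k : ℕ}
    (hφ : φ ζ = ζ ^ k) {z : ℂ} (hz : z ^ N = 1) : φ z = z ^ k := by
  haveI : NeZero N := ⟨hN.ne'⟩
  obtain ⟨i, -, rfl⟩ := hζ.eq_pow_of_pow_eq_one hz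
  rw [map_pow, hφ, pow_right_comm]

theorem root_le (hN : 0 < N) (hζ : IsPrimitiveRoot ζ N) {c : ℕ} (hc : c ∣ N) :
    adjoin ℚ {z : ℂ | z ^ c = 1} ≤ ℚ⟮ζ⟯ := by
  haveI : NeZero N := ⟨hN.ne'⟩
  refine adjoin_le_iff.2 fun z hz => ?_
  obtain ⟨e, rfl⟩ := hc
  obtain ⟨i, -, rfl⟩ := hζ.eq_pow_of_pow_eq_one (ξ := z) (by rw [pow_mul, hz, one_pow])
  exact pow_mem (mem_adjoin_simple_self ℚ ζ) i

theorem hom_eq {S : Set ℂ} {φ φ' : ℂ →+* ℂ} (h : ∀ s ∈ S, φ s = φ' s) {z : ℂ}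
    (hz : z ∈ adjoin ℚ S) : φ z = φ' z :=
  DFunLike.congr_fun (adjoin_algHom_ext ℚ (φ₁ := φ.toRatAlgHom.comp (adjoin ℚ S).val)
    (φ₂ := φ'.toRatAlgHom.comp (adjoin ℚ S).val) h) ⟨z, hz⟩

theorem val_pow (hN : 0 < N) (x : (ZMod N)ˣ) (e : ℕ) :
    ((x ^ e : (ZMod N)ˣ) : ZMod N).val ≡ (x : ZMod N).val ^ e [MOD N] := by
  haveI : NeZero N := ⟨hN.ne'⟩
  rw [← ZMod.natCast_eq_natCast_iff]
  simp

theorem exists_t (hN : 0 < N) (hζ : IsPrimitiveRoot ζ N) {F : IntermediateField ℚ ℂ}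
    (π : (ZMod N)ˣ →* (F ≃ₐ[ℚ] F))
    (hπ : ∀ (x : (ZMod N)ˣ) (φ : ℂ →+* ℂ), φ ζ = ζ ^ (x : ZMod N).val →
      ∀ z : F, (π x z : ℂ) = φ z) {c l : ℕ}
    (hc : IsLeast {n | 0 < n ∧ F ≤ adjoin ℚ {z : ℂ | z ^ n = 1}} c) (hcN : c ∣ N) (hl : l.Prime)
    (hlc : l ∣ c) : ∃ (x : (ZMod N)ˣ) (s : ℕ), π x ≠ 1 ∧ s.Prime ∧ (∃ j, x ^ s ^ j = 1) ∧
      (l ^ 2 ∣ c → s = l) ∧
      ∀ n, n ∣ N → ¬ l ^ c.factorization l ∣ n → (x : ZMod N).val ≡ 1 [MOD n] := by
  haveI : NeZero N := ⟨hN.ne'⟩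
  obtain ⟨a, c', hc', ec⟩ := Nat.exists_eq_pow_mul_and_not_dvd hc.1.1.ne' l hl.ne_one
  obtain ⟨b, N', hN', eN⟩ := Nat.exists_eq_pow_mul_and_not_dvd hN.ne' l hl.ne_one
  have c0 : c' ≠ 0 := fun h => hc' (h ▸ dvd_zero l)
  have hfa : c.factorization l = a := by
    rw [ec, Nat.factorization_mul (pow_ne_zero _ hl.ne_zero) c0, Finsupp.add_apply,
      hl.factorization_pow, Nat.factorization_eq_zero_of_not_dvd hc']
    simp
  obtain _ | e := a
  · exact absurd (by simpa [ec] using hlc) hc'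
  have co : ∀ i, (l ^ i).Coprime N' := fun i => (hl.coprime_iff_not_dvd.2 hN').pow_left i
  have co' : ∀ i, (l ^ i).Coprime c' := fun i => (hl.coprime_iff_not_dvd.2 hc').pow_left i
  have hcc : c' ∣ N' := (co' b).symm.dvd_of_dvd_mul_left
    (eN ▸ (Dvd.intro_left _ ec.symm).trans hcN)
  obtain ⟨x, hx, hx'⟩ : ∃ x : (ZMod N)ˣ, π x ≠ 1 ∧ (x : ZMod N).val ≡ 1 [MOD l ^ e * N'] := by
    by_contra! h
    have hd : l ^ e * c' ∣ N := Dvd.dvd.trans ⟨l, by rw [ec]; ring⟩ hcN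
    have : c ≤ l ^ e * c' := hc.2 ⟨Nat.pos_of_dvd_of_pos hd hN, fun z hz => by
      refine mem_adjoin_of_fixed hN hζ _ (fun s hs => root_le hN hζ hd (subset_adjoin ℚ _ hs))
        (root_le hN hζ hcN (hc.1.2 hz)) fun φ hφ => ?_
      obtain ⟨k, hk, hφk⟩ := exists_pow_of_hom hN hζ φ
      have h1 : k ≡ 1 [MOD l ^ e * c'] := by
        obtain ⟨d, hd⟩ := hd
        have h2 := hζ.pow hN (hd.trans (mul_comm _ _))
        have h3 := hφ _ h2.pow_eq_one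
        rw [map_pow, hφk, pow_right_comm] at h3
        rw [h2.eq_orderOf]
        exact (h2.isOfFinOrder (Nat.pos_of_dvd_of_pos ⟨d, hd⟩ hN).ne').pow_eq_pow_iff_modEq.1
          (h3.trans (pow_one _).symm)
      obtain ⟨u, u1, u2⟩ := Nat.chineseRemainder (co (e + 1)) k 1
      have hu : u.Coprime N := by
        rw [eN]
        refine Nat.Coprime.mul_right (Nat.Coprime.pow_right _ ?_) ?_
        · rw [Nat.Coprime, (u1.of_dvd (dvd_pow_self l e.succ_ne_zero)).gcd_eq]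
          exact hk.coprime_dvd_right (hlc.trans hcN)
        · rw [Nat.Coprime, u2.gcd_eq, Nat.gcd_one_left]
      have hv : ((ZMod.unitOfCoprime u hu : (ZMod N)ˣ) : ZMod N).val ≡ u [MOD N] := by
        simp [Nat.ModEq]
      have u3 : u ≡ 1 [MOD l ^ e * N'] := (Nat.modEq_and_modEq_iff_modEq_mul (co e)).1
        ⟨(u1.of_dvd (pow_dvd_pow l e.le_succ)).trans (h1.of_mul_right _), u2⟩
      have u4 : u ≡ k [MOD c] := ec ▸ (Nat.modEq_and_modEq_iff_modEq_mul (co' _)).1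
        ⟨u1, (u2.of_dvd hcc).trans (h1.of_mul_left _).symm⟩
      obtain ⟨φ', hφ'⟩ := exists_pow_hom hN hζ (ZMod.val_coe_unit_coprime (ZMod.unitOfCoprime u hu))
      have h2 := hπ _ φ' hφ' ⟨z, hz⟩
      have h3 : π (ZMod.unitOfCoprime u hu) = 1 := by
        by_contra h3
        refine h _ h3 ((hv.of_dvd ((co e).mul_dvd_of_dvd_of_dvd ?_ (Dvd.intro_left _ eN.symm))).trans
          u3)
        exact (Dvd.intro _ rfl).trans hd
      rw [h3] at h2
      refine Eq.trans (hom_eq (fun s hs => ?_) (hc.1.2 hz)) h2.symm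
      have h4 : s ^ N = 1 := by
        obtain ⟨d, rfl⟩ := hcN
        rw [pow_mul, hs, one_pow]
      rw [hom_root hN hζ hφk h4, hom_root hN hζ hφ' h4]
      exact pow_eq_pow_of_modEq ((hv.of_dvd hcN).trans u4).symm hs⟩
    rw [ec, pow_succ, mul_right_comm] at this
    have h0 : 0 < l ^ e * c' := Nat.pos_of_dvd_of_pos hd hN
    have := hl.two_le
    nlinarith
  obtain ⟨s, hs, hsx⟩ := Nat.exists_prime_and_dvd (orderOf_eq_one_iff.not.2 hx)
  obtain ⟨j, o, ho, eo⟩ := Nat.exists_eq_pow_mul_and_not_dvd (orderOf_pos x).ne' s hs.ne_one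
  have h1 : π (x ^ o) ≠ 1 := fun h =>
    ho (hsx.trans (orderOf_dvd_of_pow_eq_one (by rw [← map_pow, h])))
  have h2 : (x ^ o) ^ s ^ j = 1 := by rw [← pow_mul, mul_comm, ← eo, pow_orderOf_eq_one]
  refine ⟨x ^ o, s, h1, hs, ⟨j, h2⟩, fun h => ?_, fun n hn hn' => ?_⟩
  · by_contra hsl
    have h3 : l ∣ l ^ e := by
      rw [ec, pow_two, pow_succ, mul_right_comm, Nat.mul_dvd_mul_iff_right hl.pos] at h
      exact ((co' 1).coprime_dvd_left (by simp)).dvd_of_dvd_mul_right h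
    have h4 : x ^ l ^ b = 1 := by
      apply Units.ext
      rw [← ZMod.natCast_zmod_val (x ^ l ^ b : (ZMod N)ˣ).1, Units.val_one, ← Nat.cast_one,
        ZMod.natCast_eq_natCast_iff]
      refine (val_pow hN x _).trans (((Nat.modEq_and_modEq_iff_modEq_mul (co b)).1 ⟨?_, ?_⟩).of_dvd
        eN.dvd)
      · have := dvd_sub_pow_of_dvd_sub ((hx'.of_mul_right _).of_dvd h3).symm.dvd b
        refine (Nat.modEq_iff_dvd.2 ?_).symm
        simpa using (pow_dvd_pow (l : ℤ) b.le_succ).trans (by simpa using this)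
      · simpa using (hx'.of_mul_left _).pow (l ^ b)
    refine h1 (by
      rw [orderOf_eq_one_iff.1 (Nat.eq_one_of_dvd_coprimes (Nat.Coprime.pow j b
        ((Nat.coprime_primes hs hl).2 hsl)) (orderOf_dvd_of_pow_eq_one h2)
        (orderOf_dvd_of_pow_eq_one (by rw [pow_right_comm, h4, one_pow]))), map_one])
  · refine ((val_pow hN x o).of_dvd hn).trans ?_
    obtain ⟨n1, n2, d1, d2, rfl⟩ := (Nat.dvd_mul).1 (eN ▸ hn)
    obtain ⟨i, -, rfl⟩ := (Nat.dvd_prime_pow hl).1 d1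
    have : i ≤ e := by
      by_contra h
      exact hn' (hfa ▸ (pow_dvd_pow l (by omega)).mul_right _)
    simpa using (hx'.of_dvd (mul_dvd_mul (pow_dvd_pow l this) d2)).pow o

/-- The action by power maps. -/
def powAct {G : Type} [Group G] (hN : 0 < N) (ex : ∀ g : G, g ^ N = 1) : Act (ZMod N)ˣ G N where
  k x := (x : ZMod N).val
  b _ := 1
  pos := hN
  ex := ex
  cop := ZMod.val_coe_unit_coprime
  k_one := by simpa using val_pow hN 1 0
  k_mul x y := by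
    haveI : NeZero N := ⟨hN.ne'⟩
    simp [ZMod.val_mul, Nat.ModEq]
  b_one := rfl
  b_mul _ _ _ := by simp

theorem Act.fix_comm {Γ G M : Type} [CommGroup Γ] [Group G] (a : Act Γ G N) [Group M]
    {i : M →* G} (hi : Function.Injective i) {x z : Γ} {f : M → ℂ}
    (h : a.act i (x * z) f = a.act i z f) : a.act i x f = f := by
  have := congrArg (a.act i z⁻¹) h
  rwa [← a.act_mul hi, ← a.act_mul hi, inv_mul_cancel, a.act_one hi, mul_comm x,
    inv_mul_cancel_left] at this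

theorem Act.fix_zpowers {Γ G M : Type} [Group Γ] [Finite Γ] [Group G] (a : Act Γ G N) [Group M]
    {i : M →* G} (hi : Function.Injective i) {x : Γ} {f : M → ℂ} (h : a.act i x f = f) :
    ∀ y ∈ Subgroup.zpowers x, a.act i y f = f := fun y hy => by
  obtain ⟨n, rfl⟩ := mem_powers_iff_mem_zpowers.2 hy
  clear hy
  induction n with
  | zero => simpa using a.act_one hi f
  | succ n ih => simp only [pow_succ, a.act_mul hi, h]; exact ih

theorem feit {G : Type} [Group G] [Fintype G] (V : FDRep ℂ G) (hV : Simple V)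
    (F : IntermediateField ℚ ℂ) (c : ℕ) (S : Finset ℕ) (hF : F ≤ adjoin ℚ (Set.range V.character))
    (hc : IsLeast {n | 0 < n ∧ F ≤ adjoin ℚ {z : ℂ | z ^ n = 1}} c)
    (hS : ∀ l ∈ S, l.Prime ∧ l ∣ c)
    (h : ∀ s t : ℕ, s.Prime → t.Prime → s ≠ t → (∃ P : Sylow s (F ≃ₐ[ℚ] F), ¬ IsCyclic P) →
      (∃ P : Sylow t (F ≃ₐ[ℚ] F), ¬ IsCyclic P) →
      (S.filter fun l => ¬ l ^ 2 ∣ c ∨ l = s ∨ l = t).card ≤ s + t + 1) :
    ∃ (g : G) (μ : ℂ) (v : V), v ≠ 0 ∧ V.ρ g v = μ • v ∧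
      ∀ l ∈ S, l ^ c.factorization l ∣ orderOf μ := by
  have hN : 0 < c * Nat.card G := Nat.mul_pos hc.1.1 Nat.card_pos
  have ex : ∀ g : G, g ^ (c * Nat.card G) = 1 := fun g => by
    rw [mul_comm, pow_mul, pow_card_eq_one', one_pow]
  have hζ := Complex.isPrimitiveRoot_exp _ hN.ne'
  obtain ⟨π, hs, hcard, hpos, hπ⟩ := exists_pi hN hζ F
    (hc.1.2.trans (root_le hN hζ (dvd_mul_right _ _)))
  letI : CommGroup (F ≃ₐ[ℚ] F) :=
    { (inferInstance : Group (F ≃ₐ[ℚ] F)) with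
      mul_comm := fun a b => by
        obtain ⟨a, rfl⟩ := hs a
        obtain ⟨b, rfl⟩ := hs b
        rw [← map_mul, mul_comm a, map_mul] }
  haveI : Finite (F ≃ₐ[ℚ] F) := Nat.finite_of_card_ne_zero (hcard ▸ hpos.ne')
  haveI : NeZero (c * Nat.card G) := ⟨hN.ne'⟩
  choose! x s h1 h2 h3 h4 h5 using fun l (hl : l ∈ S) =>
    exists_t hN hζ π hπ hc (dvd_mul_right _ _) (hS l hl).1 (hS l hl).2
  obtain ⟨r, hr, hr'⟩ : ∃ r : ℕ, r.Prime ∧ ∀ p : ℕ, p.Prime → p ≠ r →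
      (S.filter (s · = p)).card ≤ p ∨ ∀ P : Sylow p (F ≃ₐ[ℚ] F), IsCyclic P := by
    by_contra! h6
    obtain ⟨p, hp, -, p1, p2⟩ := h6 2 Nat.prime_two
    obtain ⟨q, hq, e, q1, q2⟩ := h6 p hp
    have := (card_le_card (s := S.filter (s · = q) ∪ S.filter (s · = p)) fun l hl => by
      simp only [mem_union, mem_filter] at hl ⊢
      have := h4 l
      by_cases h7 : l ^ 2 ∣ c <;> grind).trans (h q p hq hp e q2 p2)
    rw [card_union_of_disjoint (disjoint_filter.2 fun l _ a b => e (a.symm.trans b))] at this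
    omega
  obtain ⟨lam, hlam⟩ := char_all (S.filter (s · ≠ r)) (fun l => π (x l)) s (fun l hl => by
    have hl := (mem_filter.1 hl).1
    obtain ⟨j, hj⟩ := h3 l hl
    exact ⟨h1 l hl, h2 l hl, j, by rw [← map_pow, hj, map_one]⟩) fun p hp => by
    by_cases e : p = r
    · left
      rw [filter_filter, filter_false_of_mem fun l _ a => a.1 (a.2.trans e)]
      simp
    · exact (hr' p hp e).imp_left (card_le_card (filter_subset_filter _ (filter_subset _ _))).trans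
  let a := powAct hN ex
  have hid : Function.Injective (MonoidHom.id G) := fun _ _ h => h
  have h6 : ∀ y, a.act (MonoidHom.id G) y V.character = V.character → π y = 1 := fun y hy => by
    obtain ⟨φ, hφ⟩ := exists_pow_hom hN hζ (a.cop y)
    ext z
    rw [hπ y φ hφ]
    refine hom_eq (φ' := RingHom.id ℂ) ?_ (hF z.2)
    rintro _ ⟨g, rfl⟩
    rw [IsChar.map_pow ⟨V, rfl⟩ hN hζ (ex g) hφ]
    simpa [Act.act, a, powAct] using congrFun hy g
  obtain ⟨H, ⟨y, hy, y1, -, y2⟩, ψ, hψ, -, k1, k2⟩ := core a hr ⟨V, hV, rfl⟩ (lam.comp π)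
    (fun y hy => by simp [h6 y hy]) ⊥ IsPGroup.of_bot
    (fun y hy => by rw [Subgroup.mem_bot.1 hy, a.act_one hid]) (fun H => H) fun _ => le_rfl
  have hi := H.subtype_injective
  obtain ⟨z, -, hz⟩ := k2 ⊥ IsPGroup.of_bot fun y hy => by rw [Subgroup.mem_bot.1 hy, a.act_one hi]
  obtain ⟨W, hW, e⟩ := a.isIrr hi z⁻¹ hψ
  obtain ⟨f, f1, f2⟩ := inj_of_simple W hW (V.ρ.comp H.subtype) (by
    rw [← a.ip_act hi z, e, ← a.act_mul hi, mul_inv_cancel, a.act_one hi]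
    exact hz)
  obtain ⟨g, μ, v, v0, hv, hμ⟩ := hyp_eig W hW hr hN (a.exM hi) (y := ⟨y, hy⟩)
    (fun g => let ⟨j, e⟩ := y1 g g.2; ⟨j, Subtype.ext e⟩)
    (fun g => let ⟨i, j, e⟩ := y2 g g.2; ⟨i, j, Subtype.ext e⟩) S c.factorization fun l hl => by
    refine ⟨(hS l hl).1, _, a.cop (x l), h5 l hl, ?_⟩
    by_contra! h7
    have h8 : a.act H.subtype (x l) ψ = ψ := a.fix_comm hi (z := z⁻¹) (by
      rw [a.act_mul hi, ← e]
      ext g
      simpa [Act.act, a, powAct] using h7 g)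
    by_cases e : s l = r
    · obtain ⟨j, hj⟩ := h3 l hl
      obtain ⟨z, h9, -⟩ := k2 _ (isPGroup_zpowers (e ▸ hj)) (a.fix_zpowers hi h8)
      exact h1 l hl (h6 _ (a.fix_comm hid (h9 _ (Subgroup.mem_zpowers _))))
    · exact hlam l (mem_filter.2 ⟨hl, e⟩) (k1 _ h8)
  exact ⟨g, μ, f v, (map_ne_zero_iff f f1).2 v0, (f2 g v).symm.trans (by rw [hv, map_smul]), hμ⟩

end Pool.Agent.P.MP_b1ffdf_al.Loc
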