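import Pool.Agent.P.MP_b1ffdf_al.Loc.Core

set_option autoImplicit false

open Classical IntermediateField

namespace Pool.Agent.P.MP_b1ffdf_al.Loc

open Pool.Agent.P.MP_b1ffdf_al

variable {N : ℕ} {ζ : ℂ}

/-- The units modulo `N` map onto the automorphism group of a subfield of a cyclotomic field. -/
theorem exists_pi (hN : 0 < N) (hζ : IsPrimitiveRoot ζ N) (F : IntermediateField ℚ ℂ)
    (hF : F ≤ ℚ⟮ζ⟯) : ∃ π : (ZMod N)ˣ →* (F ≃ₐ[ℚ] F), Function.Surjective π ∧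
      Nat.card (F ≃ₐ[ℚ] F) = Module.finrank ℚ F ∧ 0 < Module.finrank ℚ F ∧
      ∀ (x : (ZMod N)ˣ) (φ : ℂ →+* ℂ), φ ζ = ζ ^ (x : ZMod N).val → ∀ z : F, (π x z : ℂ) = φ z := by
  haveI : NeZero N := ⟨hN.ne'⟩
  haveI := cyc hN hζ
  haveI : FiniteDimensional ℚ ℚ⟮ζ⟯ := IsCyclotomicExtension.finiteDimensional {N} ℚ _
  haveI : NumberField ℚ⟮ζ⟯ := {}
  haveI : IsAbelianGalois ℚ ℚ⟮ζ⟯ := IsCyclotomicExtension.isAbelianGalois {N} ℚ _
  letI : Algebra F ℚ⟮ζ⟯ := (inclusion hF).toAlgebra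
  haveI : IsScalarTower ℚ F ℚ⟮ζ⟯ := IsScalarTower.of_algebraMap_eq fun x => by simp
  haveI : IsAbelianGalois ℚ F := .tower_bot ℚ F ℚ⟮ζ⟯
  haveI : FiniteDimensional ℚ F := FiniteDimensional.left ℚ F ℚ⟮ζ⟯
  let e := IsCyclotomicExtension.Rat.galEquivZMod N ℚ⟮ζ⟯
  refine ⟨(AlgEquiv.restrictNormalHom F).comp e.symm.toMonoidHom,
    (AlgEquiv.restrictNormalHom_surjective ℚ⟮ζ⟯).comp e.symm.surjective,
    IsGalois.card_aut_eq_finrank ℚ F, Module.finrank_pos, fun x φ hφ z => ?_⟩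
  have h1 : e.symm x (AdjoinSimple.gen ℚ ζ) = AdjoinSimple.gen ℚ ζ ^ (x : ZMod N).val := by
    rw [IsCyclotomicExtension.Rat.galEquivZMod_apply_of_pow_eq N ℚ⟮ζ⟯ (e.symm x)
      (Subtype.ext hζ.pow_eq_one), MulEquiv.apply_symm_apply]
  have h2 : (ℚ⟮ζ⟯).val.comp (e.symm x).toAlgHom = φ.toRatAlgHom.comp (ℚ⟮ζ⟯).val := by
    refine adjoin_algHom_ext ℚ fun y hy => ?_
    obtain rfl : y = ζ := hy
    exact (congrArg Subtype.val h1).trans hφ.symm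
  have h3 := AlgEquiv.restrictNormal_commutes (e.symm x) F z
  exact (congrArg Subtype.val h3).trans (DFunLike.congr_fun h2 (inclusion hF z))

end Pool.Agent.P.MP_b1ffdf_al.Loc
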