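import Pool.Agent.P.MP_b1ffdf_al.Loc.Feit

set_option autoImplicit false

open Classical Finset IntermediateField CategoryTheory

namespace Pool.Agent.P.MP_b1ffdf_al.Loc

open Pool.Agent.P.MP_b1ffdf_al

section
variable {G : Type} [Group G] [Fintype G]

theorem Hyp.solvable {r : ℕ} (hr : r.Prime) {H : Subgroup G} (h : Hyp r H) :
    Group.IsSolvable H := by
  obtain ⟨y, hy, y1, -, y2⟩ := h
  haveI := Fact.mk hr
  haveI : (Subgroup.zpowers (⟨y, hy⟩ : H)).Normal := ⟨by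
    rintro _ ⟨n, rfl⟩ g
    obtain ⟨j, e⟩ := y1 g g.2
    rw [← conj_zpow]
    exact zpow_mem (show g * ⟨y, hy⟩ * g⁻¹ ∈ Subgroup.zpowers _ from ⟨j, Subtype.ext e⟩) n⟩
  have : IsPGroup r (H ⧸ Subgroup.zpowers (⟨y, hy⟩ : H)) := fun g => by
    obtain ⟨g, rfl⟩ := QuotientGroup.mk_surjective g
    obtain ⟨i, j, e⟩ := y2 g g.2
    exact ⟨i, (QuotientGroup.eq_one_iff (g ^ r ^ i)).2 ⟨j, Subtype.ext e⟩⟩
  haveI := this.isNilpotent
  exact (Group.isSolvable_iff_subgroup_quotient (Subgroup.zpowers (⟨y, hy⟩ : H))).2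
    ⟨Group.isSolvable_of_comm mul_comm', inferInstance⟩

omit [Fintype G] in
theorem normalizer_eq {M : Subgroup G} (h : Maximal (fun H : Subgroup G => Group.IsSolvable H) M) :
    Subgroup.normalizer (M : Set G) = M := by
  refine le_antisymm (fun x hx => ?_) Subgroup.le_normalizer
  let q := QuotientGroup.mk' (M.subgroupOf (Subgroup.normalizer (M : Set G)))
  let Z := Subgroup.zpowers (q ⟨x, hx⟩)
  have h1 : ∀ m : M, Subgroup.inclusion Subgroup.le_normalizer m ∈ Z.comap q := fun m => by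
    rw [Subgroup.mem_comap, show q _ = 1 from (QuotientGroup.eq_one_iff _).2 m.2]
    exact one_mem _
  haveI := h.1
  haveI : Group.IsSolvable Z := Group.isSolvable_of_comm mul_comm'
  haveI := Group.isSolvable_of_ker_le_range
    ((Subgroup.inclusion Subgroup.le_normalizer).codRestrict _ h1) (q.subgroupComap Z)
    fun u hu => ⟨⟨u.1.1, (QuotientGroup.eq_one_iff u.1).1 (congrArg Subtype.val hu)⟩, rfl⟩
  exact h.2 (Group.isSolvable_of_surjective (MonoidHom.subgroupMap_surjective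
    (Subgroup.normalizer (M : Set G)).subtype (Z.comap q))) (fun m hm => ⟨_, h1 ⟨m, hm⟩, rfl⟩)
    ⟨⟨x, hx⟩, Subgroup.mem_zpowers _, rfl⟩

end

theorem red {Γ B : Type} [Group Γ] [Finite Γ] [Group B] (π : Γ →* B) {x : Γ}
    (h : ∀ y ∈ Subgroup.zpowers x, ∀ s j : ℕ, s.Prime → y ^ s ^ j = 1 → π y = 1) : π x = 1 := by
  by_contra hx
  obtain ⟨s, hs, hsx⟩ := Nat.exists_prime_and_dvd (orderOf_eq_one_iff.not.2 hx)
  obtain ⟨j, o, ho, eo⟩ := Nat.exists_eq_pow_mul_and_not_dvd (orderOf_pos x).ne' s hs.ne_one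
  refine ho (hsx.trans (orderOf_dvd_of_pow_eq_one ?_))
  rw [← map_pow]
  exact h _ (pow_mem (Subgroup.mem_zpowers x) o) s j hs (by
    rw [← pow_mul, mul_comm, ← eo, pow_orderOf_eq_one])

variable {N : ℕ} {ζ : ℂ} {G : Type} [Group G]

section
variable (hN : 0 < N) (hζ : IsPrimitiveRoot ζ N) (ex : ∀ g : G, g ^ N = 1) {M : Type} [Group M]
  [Fintype M] {i : M →* G} (hi : Function.Injective i) {f : M → ℂ} (hf : IsChar f)
include hζ hi hf

include hN ex in
theorem field_le : adjoin ℚ (Set.range f) ≤ ℚ⟮ζ⟯ := adjoin_le_iff.2 (by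
  rintro _ ⟨g, rfl⟩
  exact hf.mem_field hN hζ ((powAct hN ex).exM hi g))

variable {E : IntermediateField ℚ ℂ} {π : (ZMod N)ˣ →* (E ≃ₐ[ℚ] E)}
  (hπ : ∀ (x : (ZMod N)ˣ) (φ : ℂ →+* ℂ), φ ζ = ζ ^ (x : ZMod N).val → ∀ z : E, (π x z : ℂ) = φ z)
include hπ

theorem fix_of_le (h : E ≤ adjoin ℚ (Set.range f)) {x : (ZMod N)ˣ}
    (hx : (powAct hN ex).act i x f = f) : π x = 1 := by
  obtain ⟨φ, hφ⟩ := exists_pow_hom hN hζ (ZMod.val_coe_unit_coprime x)
  ext z
  rw [hπ x φ hφ]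
  refine hom_eq (φ' := RingHom.id ℂ) ?_ (h z.2)
  rintro _ ⟨g, rfl⟩
  rw [hf.map_pow hN hζ ((powAct hN ex).exM hi g) hφ]
  simpa [Act.act, powAct] using congrFun hx g

theorem le_of_fix (hE : E ≤ ℚ⟮ζ⟯) (h : ∀ x, (powAct hN ex).act i x f = f → π x = 1) :
    E ≤ adjoin ℚ (Set.range f) := fun z hz => by
  haveI : NeZero N := ⟨hN.ne'⟩
  refine mem_adjoin_of_fixed hN hζ _ (fun s hs => field_le hN hζ ex hi hf (subset_adjoin ℚ _ hs))
    (hE hz) fun φ hφ => ?_
  obtain ⟨k, hk, e⟩ := exists_pow_of_hom hN hζ φ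
  have e' : φ ζ = ζ ^ ((ZMod.unitOfCoprime k hk : (ZMod N)ˣ) : ZMod N).val :=
    e.trans (pow_eq_pow_of_modEq (by simp [Nat.ModEq]) hζ.pow_eq_one)
  rw [← hπ _ φ e' ⟨z, hz⟩, h _ (funext fun g => ?_)]
  · rfl
  · have := hf.map_pow hN hζ ((powAct hN ex).exM hi g) e'
    rw [hφ _ ⟨g, rfl⟩] at this
    simpa [Act.act, powAct] using this.symm

end

theorem weak [Fintype G] (V : FDRep ℂ G) (hV : Simple V) {r : ℕ} (hr : r.Prime)
    (F : IntermediateField ℚ ℂ) (hF : F ≤ adjoin ℚ (Set.range V.character))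
    (h : ∀ s : ℕ, s.Prime → s ≠ r → ∀ P : Sylow s (F ≃ₐ[ℚ] F), IsCyclic P) :
    ∃ (H : Subgroup G) (W : FDRep ℂ H), Maximal (fun H : Subgroup G => Group.IsSolvable H) H ∧
      Simple W ∧ ip (V.character ∘ H.subtype) W.character ≠ 0 ∧
      F ≤ adjoin ℚ (Set.range W.character) ∧
      ∀ (E : IntermediateField ℚ ℂ) (n : ℕ), Module.finrank ℚ E = r ^ n →
        (E ≤ adjoin ℚ (Set.range V.character) ↔ E ≤ adjoin ℚ (Set.range W.character)) := by
  have hN : 0 < Nat.card G := Nat.card_pos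
  have ex : ∀ g : G, g ^ Nat.card G = 1 := fun g => pow_card_eq_one'
  have hζ := Complex.isPrimitiveRoot_exp _ hN.ne'
  have hid : Function.Injective (MonoidHom.id G) := fun _ _ h => h
  have hχ : IsChar V.character := ⟨V, rfl⟩
  have hFζ := hF.trans (field_le hN hζ ex hid hχ)
  obtain ⟨π, hs, hcard, hpos, hπ⟩ := exists_pi hN hζ F hFζ
  letI : CommGroup (F ≃ₐ[ℚ] F) :=
    { (inferInstance : Group (F ≃ₐ[ℚ] F)) with
      mul_comm := fun a b => by
        obtain ⟨a, rfl⟩ := hs a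
        obtain ⟨b, rfl⟩ := hs b
        rw [← map_mul, mul_comm a, map_mul] }
  haveI : Finite (F ≃ₐ[ℚ] F) := Nat.finite_of_card_ne_zero (hcard ▸ hpos.ne')
  haveI : NeZero (Nat.card G) := ⟨hN.ne'⟩
  haveI := Fact.mk hr
  obtain ⟨lam, hlam⟩ : ∃ lam : (F ≃ₐ[ℚ] F) →* ℂˣ, ∀ τ (s j : ℕ), s.Prime → s ≠ r → τ ^ s ^ j = 1 →
      lam τ = 1 → τ = 1 := by
    obtain ⟨e, he⟩ := Countable.exists_injective_nat (F ≃ₐ[ℚ] F)
    let p : (F ≃ₐ[ℚ] F) → Prop := fun τ => τ ≠ 1 ∧ ∃ s : ℕ, s ≠ r ∧ s.Prime ∧ ∃ j, τ ^ s ^ j = 1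
    choose! s s1 s2 using fun τ (h : p τ) => h.2
    have h1 : ∀ i ∈ (Set.toFinite {τ | p τ}).toFinset.image e, p (Function.invFun e i) := by
      simp only [mem_image, Set.Finite.mem_toFinset]
      rintro _ ⟨τ, h, rfl⟩
      rwa [Function.leftInverse_invFun he]
    obtain ⟨lam, h2⟩ := char_all _ (Function.invFun e) (fun i => s (Function.invFun e i))
      (fun i hi => ⟨(h1 i hi).1, s2 _ (h1 i hi)⟩) fun q hq => by
      by_cases e : q = r
      · left
        rw [filter_false_of_mem fun i hi a => s1 _ (h1 i hi) (a.trans e)]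
        simp
      · exact Or.inr (h q hq e)
    refine ⟨lam, fun τ s j a b c d => by_contra fun h3 => h2 (e τ) (mem_image_of_mem _ ?_) ?_⟩
    · exact (Set.Finite.mem_toFinset _).2 ⟨h3, s, b, a, j, c⟩
    · rwa [Function.leftInverse_invFun he]
  choose M M1 M2 using fun H : Subgroup G => show ∃ M, H ≤ M ∧ (Group.IsSolvable H →
      Maximal (fun H : Subgroup G => Group.IsSolvable H) M) from by
    by_cases h : Group.IsSolvable H
    · exact (Finite.exists_le_maximal (p := fun H : Subgroup G => Group.IsSolvable H) h).imp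
        fun _ h => ⟨h.1, fun _ => h.2⟩
    · exact ⟨H, le_rfl, fun h' => absurd h' h⟩
  let a := powAct hN ex
  let _ := a.irr hid
  let P := MulAction.stabilizer (ZMod (Nat.card G))ˣ
    (⟨V.character, V, hV, rfl⟩ : {ψ : G → ℂ // IsIrr ψ}) ⊓ CommGroup.primaryComponent _ r
  obtain ⟨H, hH, ψ, hψ, k0, k1, k2⟩ := core a hr ⟨V, hV, rfl⟩ (lam.comp π)
    (fun y hy => by simp [fix_of_le hN hζ ex hid hχ hπ hF hy]) P
    CommGroup.primaryComponent.isPGroup.to_inf_right (fun y hy => congrArg Subtype.val hy.1) M M1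
  have hi := (M H).subtype_injective
  obtain ⟨z, -, hz⟩ := k2 ⊥ IsPGroup.of_bot fun y hy => by rw [Subgroup.mem_bot.1 hy, a.act_one hi]
  obtain ⟨W, hW, e⟩ := a.isIrr hi z⁻¹ hψ
  have hψ' : IsChar W.character := ⟨W, rfl⟩
  have k3 : ∀ x, a.act (M H).subtype x W.character = W.character ↔ a.act (M H).subtype x ψ = ψ :=
    fun x => by
      rw [e, ← a.act_mul hi]
      exact ⟨a.fix_comm hi, fun h => by rw [mul_comm, a.act_mul hi, h]⟩
  have k4 : ∀ x j, x ^ r ^ j = 1 → (a.act (M H).subtype x W.character = W.character ↔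
      a.act (MonoidHom.id G) x V.character = V.character) := fun x j hx => by
    rw [k3]
    refine ⟨fun h => ?_, fun h => k0 x ⟨Subtype.ext h, j, hx⟩⟩
    obtain ⟨z, h9, -⟩ := k2 _ (isPGroup_zpowers hx) (a.fix_zpowers hi h)
    exact a.fix_comm hid (h9 _ (Subgroup.mem_zpowers _))
  refine ⟨M H, W, M2 H (hH.solvable hr), hW, ?_,
    le_of_fix hN hζ ex hi hψ' hπ hFζ fun x hx => red π fun y hy s j hs h => ?_, fun E n hE => ?_⟩
  · rw [← a.ip_act hi z, e, ← a.act_mul hi, mul_inv_cancel, a.act_one hi]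
    exact hz
  · have := a.fix_zpowers hi hx y hy
    by_cases e : s = r
    · exact fix_of_le hN hζ ex hid hχ hπ hF ((k4 y j (e ▸ h)).1 this)
    · exact hlam _ s j hs e (by rw [← map_pow, h, map_one]) (k1 y ((k3 y).1 this))
  have k5 : ∀ (π : (ZMod (Nat.card G))ˣ →* (E ≃ₐ[ℚ] E)) y (s j : ℕ), s.Prime → y ^ s ^ j = 1 →
      Nat.card (E ≃ₐ[ℚ] E) = Module.finrank ℚ E → s ≠ r → π y = 1 := fun π y s j hs h hc e =>
    orderOf_eq_one_iff.1 (Nat.eq_one_of_dvd_coprimes (Nat.Coprime.pow j n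
      ((Nat.coprime_primes hs hr).2 e)) (orderOf_dvd_of_pow_eq_one (by rw [← map_pow, h, map_one]))
      (hE ▸ hc ▸ orderOf_dvd_natCard _))
  constructor <;> intro h
  · have h1 := h.trans (field_le hN hζ ex hid hχ)
    obtain ⟨π, -, hc, -, hπ⟩ := exists_pi hN hζ E h1
    refine le_of_fix hN hζ ex hi hψ' hπ h1 fun x hx => red π fun y hy s j hs h2 => ?_
    refine by_contra fun h3 => h3 (k5 π y s j hs h2 hc fun e => h3 ?_)
    exact fix_of_le hN hζ ex hid hχ hπ h ((k4 y j (e ▸ h2)).1 (a.fix_zpowers hi hx y hy))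
  · have h1 := h.trans (field_le hN hζ ex hi hψ')
    obtain ⟨π, -, hc, -, hπ⟩ := exists_pi hN hζ E h1
    refine le_of_fix hN hζ ex hid hχ hπ h1 fun x hx => red π fun y hy s j hs h2 => ?_
    refine by_contra fun h3 => h3 (k5 π y s j hs h2 hc fun e => h3 ?_)
    exact fix_of_le hN hζ ex hi hψ' hπ h ((k4 y j (e ▸ h2)).2 (a.fix_zpowers hid hx y hy))

end Pool.Agent.P.MP_b1ffdf_al.Loc
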